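import Mathlib

/-!
# Killing exponentials, products from below, Diophantine estimate
-/

open Finset

namespace Pool.Agent.R612.OB

/-- one-variable killing lemma -/
theorem diff1 {ι κ : Type*} [DecidableEq κ] (I : Finset ι) (z : ι → ℂ) (ρ : κ → ℂ) (R : Finset κ) :
    ∀ (c : ι → ℂ) (G : ℝ), (∀ k ≤ R.card, ‖∑ i ∈ I, c i * z i ^ k‖ ≤ G) →
      ‖∑ i ∈ I, c i * ∏ r ∈ R, (z i - ρ r)‖ ≤ (∏ r ∈ R, (1 + ‖ρ r‖)) * G := by
  induction R using Finset.induction_on with
  | empty =>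
    intro c G h
    simpa using h 0 (le_refl _)
  | insert a s ha ih =>
    intro c G h
    have h1 := ih (fun i => c i * (z i - ρ a)) ((1 + ‖ρ a‖) * G) (by
      intro k hk
      have e : ∑ i ∈ I, c i * (z i - ρ a) * z i ^ k =
          ∑ i ∈ I, c i * z i ^ (k + 1) - ρ a * ∑ i ∈ I, c i * z i ^ k := by
        rw [Finset.mul_sum, ← Finset.sum_sub_distrib]
        refine Finset.sum_congr rfl fun i _ => ?_
        ring
      rw [e]
      have hc : (insert a s).card = s.card + 1 := Finset.card_insert_of_notMem ha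
      have h2 := h (k + 1) (by omega)
      have h3 := h k (by omega)
      calc _ ≤ ‖∑ i ∈ I, c i * z i ^ (k + 1)‖ + ‖ρ a * ∑ i ∈ I, c i * z i ^ k‖ := norm_sub_le _ _
        _ = ‖∑ i ∈ I, c i * z i ^ (k + 1)‖ + ‖ρ a‖ * ‖∑ i ∈ I, c i * z i ^ k‖ := by rw [norm_mul]
        _ ≤ G + ‖ρ a‖ * G := by gcongr
        _ = _ := by ring)
    rw [Finset.prod_insert ha]
    have e : ∑ i ∈ I, c i * ∏ r ∈ insert a s, (z i - ρ r) =
        ∑ i ∈ I, c i * (z i - ρ a) * ∏ r ∈ s, (z i - ρ r) := by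
      refine Finset.sum_congr rfl fun i _ => ?_
      rw [Finset.prod_insert ha]
      ring
    rw [e]
    refine h1.trans (le_of_eq (by ring))

/-- two-variable killing lemma -/
theorem diff2 {ι κ : Type*} [DecidableEq κ] (I : Finset ι) (z w : ι → ℂ) (ρ σ : κ → ℂ)
    (R S : Finset κ) (c : ι → ℂ) (G : ℝ)
    (h : ∀ k ≤ R.card, ∀ l ≤ S.card, ‖∑ i ∈ I, c i * z i ^ k * w i ^ l‖ ≤ G) :
    ‖∑ i ∈ I, c i * (∏ r ∈ R, (z i - ρ r)) * ∏ s ∈ S, (w i - σ s)‖ ≤
      (∏ s ∈ S, (1 + ‖σ s‖)) * ((∏ r ∈ R, (1 + ‖ρ r‖)) * G) := by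
  have := diff1 I w σ S (fun i => c i * ∏ r ∈ R, (z i - ρ r)) ((∏ r ∈ R, (1 + ‖ρ r‖)) * G) (by
    intro l hl
    have := diff1 I z ρ R (fun i => c i * w i ^ l) G (by
      intro k hk
      have := h k hk l hl
      convert this using 2
      refine Finset.sum_congr rfl fun i _ => ?_
      ring)
    convert this using 2
    refine Finset.sum_congr rfl fun i _ => ?_
    ring)
  exact this

/-- the product of the distances -/
theorem prod_dist (i n : ℕ) (h : i ≤ n) :
    ∏ j ∈ (range (n + 1)).erase i, |(i : ℝ) - j| = (i.factorial : ℝ) * ((n - i).factorial : ℝ) := by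
  induction n, h using Nat.le_induction with
  | base =>
    have e : (range (i + 1)).erase i = range i := by
      ext j; simp only [mem_erase, mem_range]; omega
    rw [e, Nat.sub_self]
    have : ∏ j ∈ range i, |(i : ℝ) - j| = (i.factorial : ℝ) := by
      rw [← Finset.prod_range_add_one_eq_factorial, ← Finset.prod_range_reflect]
      push_cast
      refine Finset.prod_congr rfl fun j hj => ?_
      have hj := mem_range.1 hj
      rw [Nat.sub_sub, Nat.cast_sub (by omega)]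
      push_cast
      rw [show (i : ℝ) - (i - (1 + j)) = j + 1 by ring]
      exact abs_of_nonneg (by positivity)
    rw [this]; simp
  | succ n hn ih =>
    have e : (range (n + 1 + 1)).erase i = insert (n + 1) ((range (n + 1)).erase i) := by
      ext j; simp only [mem_erase, mem_range, mem_insert]; omega
    rw [e, Finset.prod_insert (by simp), ih]
    have h1 : n + 1 - i = (n - i) + 1 := by omega
    rw [h1, Nat.factorial_succ]
    have h2 : |(i : ℝ) - ((n + 1 : ℕ) : ℝ)| = ((n - i + 1 : ℕ) : ℝ) := by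
      push_cast
      rw [Nat.cast_sub hn, abs_sub_comm]
      have : (i : ℝ) ≤ n := by exact_mod_cast hn
      rw [abs_of_nonneg (by linarith)]
      ring
    rw [h2]
    push_cast
    ring

/-- lower bound for the normalised product of the distances -/
theorem prod_dist_ge (i n : ℕ) (hn : 1 ≤ n) (h : i ≤ n) :
    (1 / 6 : ℝ) ^ n ≤ ∏ j ∈ (range (n + 1)).erase i, (|(i : ℝ) - j| / n) := by
  rw [Finset.prod_div_distrib, prod_dist i n h, Finset.prod_const,
    Finset.card_erase_of_mem (mem_range.2 (by omega)), card_range, Nat.add_sub_cancel]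
  have hn0 : (0 : ℝ) < n := by exact_mod_cast hn
  rw [le_div_iff₀ (by positivity)]
  have h1 : (n.factorial : ℝ) ≤ 2 ^ n * ((i.factorial : ℝ) * ((n - i).factorial : ℝ)) := by
    have := Nat.choose_mul_factorial_mul_factorial h
    have h2 := Nat.choose_le_two_pow n i
    have h3 : n.factorial ≤ 2 ^ n * (i.factorial * (n - i).factorial) := by
      calc n.factorial = n.choose i * (i.factorial * (n - i).factorial) := by
            rw [← this]; ring
        _ ≤ _ := Nat.mul_le_mul_right _ h2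
    exact_mod_cast h3
  have h2 : (n : ℝ) ^ n ≤ 3 ^ n * (n.factorial : ℝ) := by
    have h3 := Real.pow_div_factorial_le_exp (n : ℝ) hn0.le n
    rw [div_le_iff₀ (by positivity)] at h3
    refine h3.trans ?_
    gcongr
    rw [show (n : ℝ) = n * 1 by ring, Real.exp_nat_mul]
    exact pow_le_pow_left₀ (Real.exp_pos _).le (by linarith [Real.exp_one_lt_d9]) n
  calc (1 / 6 : ℝ) ^ n * (n : ℝ) ^ n ≤ (1 / 6 : ℝ) ^ n * (3 ^ n * (n.factorial : ℝ)) := by gcongr
    _ ≤ (1 / 6 : ℝ) ^ n * (3 ^ n * (2 ^ n * ((i.factorial : ℝ) * ((n - i).factorial : ℝ)))) := by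
        gcongr
    _ = ((1 / 6 : ℝ) * 3 * 2) ^ n * ((i.factorial : ℝ) * ((n - i).factorial : ℝ)) := by
        rw [mul_pow, mul_pow]; ring
    _ = _ := by norm_num

/-- `e x = exp (i π x)` -/
noncomputable def e (x : ℝ) : ℂ := Complex.exp ((Real.pi * x : ℝ) * Complex.I)

theorem e_add (x y : ℝ) : e (x + y) = e x * e y := by
  unfold e
  rw [← Complex.exp_add]
  congr 1
  push_cast
  ring

theorem norm_e (x : ℝ) : ‖e x‖ = 1 := by
  unfold e
  rw [Complex.norm_exp_ofReal_mul_I]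

theorem e_pow (x : ℝ) (n : ℕ) : e x ^ n = e (n * x) := by
  unfold e
  rw [← Complex.exp_nat_mul]
  congr 1
  push_cast
  ring

theorem e_zero : e 0 = 1 := by simp [e]

theorem e_neg (x : ℝ) : e (-x) = (starRingEnd ℂ) (e x) := by
  unfold e
  rw [← Complex.exp_conj]
  congr 1
  simp

theorem e_sub_neg (x : ℝ) : e x - e (-x) = 2 * Complex.I * (Real.sin (Real.pi * x) : ℂ) := by
  unfold e
  rw [show ((Real.pi * -x : ℝ) : ℂ) = -((Real.pi * x : ℝ) : ℂ) by push_cast; ring]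
  rw [Complex.exp_mul_I, Complex.exp_mul_I, Complex.cos_neg, Complex.sin_neg, Complex.ofReal_sin]
  ring

/-- Jordan's inequality -/
theorem jordan {x : ℝ} (hx : |x| ≤ 1 / 2) : 2 * |x| ≤ |Real.sin (Real.pi * x)| := by
  have hpi := Real.pi_pos
  have h1 : |Real.pi * x| ≤ Real.pi / 2 := by
    rw [abs_mul, abs_of_pos hpi]; nlinarith
  have h2 := Real.mul_abs_le_abs_sin h1
  rw [abs_mul, abs_of_pos hpi] at h2
  calc 2 * |x| = 2 / Real.pi * (Real.pi * |x|) := by field_simp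
    _ ≤ _ := h2

theorem norm_e_sub (a b : ℝ) (h : |a - b| ≤ 1) : 2 * |a - b| ≤ ‖e a - e b‖ := by
  have h1 : e a - e b = e ((a + b) / 2) * (e ((a - b) / 2) - e (-((a - b) / 2))) := by
    rw [mul_sub, ← e_add, ← e_add]
    congr 2 <;> ring
  rw [h1, e_sub_neg, norm_mul, norm_e, one_mul, norm_mul, norm_mul, Complex.norm_I,
    Complex.norm_real, Real.norm_eq_abs]
  have h2 := jordan (x := (a - b) / 2) (by rw [abs_div, abs_two]; linarith)
  rw [abs_div, abs_two] at h2
  simp only [Complex.norm_ofNat, mul_one]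
  linarith

/-- product on the circle -/
theorem pk (N : ℕ) (hN : 1 ≤ N) (i : ℕ) (hi : i ≤ 2 * N) :
    (1 / 144 : ℝ) ^ N ≤ ∏ j ∈ (range (2 * N + 1)).erase i,
      ‖e (((i : ℝ) - N) / (8 * N)) - e (((j : ℝ) - N) / (8 * N))‖ := by
  have hN0 : (0 : ℝ) < N := by exact_mod_cast hN
  have h0 := prod_dist_ge i (2 * N) (by omega) hi
  have h1 : ∏ j ∈ (range (2 * N + 1)).erase i, ((1 / 2 : ℝ) * (|(i : ℝ) - j| / ((2 * N : ℕ) : ℝ))) ≤
      ∏ j ∈ (range (2 * N + 1)).erase i,
      ‖e (((i : ℝ) - N) / (8 * N)) - e (((j : ℝ) - N) / (8 * N))‖ := by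
    refine Finset.prod_le_prod (fun j _ => by positivity) fun j hj => ?_
    have hj := mem_range.1 (mem_of_mem_erase hj)
    have e1 : ((i : ℝ) - N) / (8 * N) - ((j : ℝ) - N) / (8 * N) = ((i : ℝ) - j) / (8 * N) := by
      field_simp; ring
    have hij : |(i : ℝ) - j| ≤ 2 * N := by
      rw [abs_le]
      have h1 : (i : ℝ) ≤ 2 * N := by exact_mod_cast hi
      have h2 : (j : ℝ) ≤ 2 * N := by
        have : j ≤ 2 * N := by omega
        exact_mod_cast this
      have h3 : (0 : ℝ) ≤ i := by positivity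
      have h4 : (0 : ℝ) ≤ j := by positivity
      constructor <;> linarith
    have h2 := norm_e_sub (((i : ℝ) - N) / (8 * N)) (((j : ℝ) - N) / (8 * N)) (by
      rw [e1, abs_div, abs_of_pos (by positivity : (0 : ℝ) < 8 * N), div_le_iff₀ (by positivity)]
      linarith)
    refine le_trans (le_of_eq ?_) h2
    rw [e1, abs_div, abs_of_pos (by positivity : (0 : ℝ) < 8 * N)]
    push_cast
    field_simp
    ring
  refine le_trans ?_ h1
  rw [Finset.prod_mul_distrib, Finset.prod_const,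
    Finset.card_erase_of_mem (mem_range.2 (by omega)), card_range, Nat.add_sub_cancel]
  calc (1 / 144 : ℝ) ^ N = (1 / 2 : ℝ) ^ (2 * N) * (1 / 6 : ℝ) ^ (2 * N) := by
        rw [pow_mul, pow_mul, ← mul_pow]; norm_num
    _ ≤ _ := by gcongr

/-- exponentials are far from each other -/
theorem exp_sub_ge (x y C : ℝ) (hx : x ≤ C) (hy : y ≤ C) :
    Real.exp (-C) * |x - y| ≤ |Real.exp (-x) - Real.exp (-y)| := by
  wlog h : x ≤ y generalizing x y with H
  · have := H y x hy hx (le_of_not_ge h)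
    rwa [abs_sub_comm, abs_sub_comm (Real.exp (-x))]
  have h1 : Real.exp (-y) ≤ Real.exp (-x) := Real.exp_le_exp.2 (by linarith)
  rw [abs_sub_comm, abs_of_nonneg (by linarith), abs_of_nonneg (by linarith)]
  have h2 : Real.exp (-x) = Real.exp (-y) * Real.exp (y - x) := by
    rw [← Real.exp_add]; congr 1; ring
  have h3 := Real.add_one_le_exp (y - x)
  have h4 : Real.exp (-C) ≤ Real.exp (-y) := Real.exp_le_exp.2 (by linarith)
  rw [h2]
  have h5 := Real.exp_pos (-y)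
  nlinarith

/-- product of the differences of the decay rates -/
theorem pj : ∃ μ : ℝ, 0 < μ ∧ μ ≤ 1 ∧ ∀ N : ℕ, 1 ≤ N → ∀ (K : ℝ), |K| ≤ N → ∀ J ≤ N,
    μ ^ N ≤ ∏ j ∈ (range (N + 1)).erase J,
      |Real.exp (-(Real.pi ^ 2 / (2 * (N : ℝ) ^ 2) * (K ^ 2 + (J : ℝ) ^ 2))) -
        Real.exp (-(Real.pi ^ 2 / (2 * (N : ℝ) ^ 2) * (K ^ 2 + (j : ℝ) ^ 2)))| := by
  have hpi := Real.pi_pos
  set a : ℝ := Real.exp (-(Real.pi ^ 2)) with ha
  have ha0 : 0 < a := Real.exp_pos _
  have ha1 : a ≤ 1 := by rw [ha]; exact Real.exp_le_one_iff.2 (by nlinarith)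
  refine ⟨a / 36, by positivity, by linarith, ?_⟩
  intro N hN K hK J hJ
  have hN0 : (0 : ℝ) < N := by exact_mod_cast hN
  have h0 := prod_dist_ge J N hN hJ
  have hK2 : K ^ 2 ≤ (N : ℝ) ^ 2 := by
    rw [← sq_abs K]; exact pow_le_pow_left₀ (abs_nonneg _) hK 2
  have hb : ∀ j : ℕ, j ≤ N → Real.pi ^ 2 / (2 * (N : ℝ) ^ 2) * (K ^ 2 + (j : ℝ) ^ 2) ≤
      Real.pi ^ 2 := by
    intro j hj
    have h1 : (j : ℝ) ^ 2 ≤ (N : ℝ) ^ 2 := by
      have : (j : ℝ) ≤ N := by exact_mod_cast hj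
      exact pow_le_pow_left₀ (by positivity) this 2
    rw [div_mul_eq_mul_div, div_le_iff₀ (by positivity)]
    nlinarith [sq_nonneg Real.pi]
  have h1 : ∏ j ∈ (range (N + 1)).erase J, (a * ((|(J : ℝ) - j| / N) * (|(J : ℝ) - j| / N))) ≤
      ∏ j ∈ (range (N + 1)).erase J,
      |Real.exp (-(Real.pi ^ 2 / (2 * (N : ℝ) ^ 2) * (K ^ 2 + (J : ℝ) ^ 2))) -
        Real.exp (-(Real.pi ^ 2 / (2 * (N : ℝ) ^ 2) * (K ^ 2 + (j : ℝ) ^ 2)))| := by
    refine Finset.prod_le_prod (fun j _ => by positivity) fun j hj => ?_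
    have hj := mem_range.1 (mem_of_mem_erase hj)
    refine le_trans ?_ (exp_sub_ge _ _ (Real.pi ^ 2) (hb J hJ) (hb j (by omega)))
    rw [ha]
    gcongr
    have e1 : Real.pi ^ 2 / (2 * (N : ℝ) ^ 2) * (K ^ 2 + (J : ℝ) ^ 2) -
        Real.pi ^ 2 / (2 * (N : ℝ) ^ 2) * (K ^ 2 + (j : ℝ) ^ 2) =
        Real.pi ^ 2 / 2 * ((((J : ℝ) - j) / N) * (((J : ℝ) + j) / N)) := by
      field_simp; ring
    rw [e1, abs_mul, abs_mul, abs_of_pos (by positivity : (0 : ℝ) < Real.pi ^ 2 / 2), abs_div,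
      abs_div, abs_of_pos hN0]
    have h2 : |(J : ℝ) - j| ≤ |(J : ℝ) + j| := by
      have h3 : (0 : ℝ) ≤ J := by positivity
      have h4 : (0 : ℝ) ≤ j := by positivity
      rw [abs_of_nonneg (by positivity : (0 : ℝ) ≤ (J : ℝ) + j), abs_le]
      constructor <;> linarith
    have h3 : (|(J : ℝ) - j| / N) * (|(J : ℝ) - j| / N) ≤ |(J : ℝ) - j| / N * (|(J : ℝ) + j| / N) := by
      gcongr
    have h4 : (0 : ℝ) ≤ |(J : ℝ) - j| / N * (|(J : ℝ) + j| / N) := by positivity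
    have h5 : (1 : ℝ) ≤ Real.pi ^ 2 / 2 := by nlinarith [Real.pi_gt_three]
    nlinarith
  refine le_trans ?_ h1
  rw [Finset.prod_mul_distrib, Finset.prod_mul_distrib, Finset.prod_const,
    Finset.card_erase_of_mem (mem_range.2 (by omega)), card_range, Nat.add_sub_cancel]
  calc (a / 36) ^ N = a ^ N * ((1 / 6 : ℝ) ^ N * (1 / 6 : ℝ) ^ N) := by
        rw [← mul_pow, ← mul_pow]; congr 1; ring
    _ ≤ _ := by gcongr

/-- the slope is badly approximable -/
theorem dio (m : ℕ) (hm : 1 ≤ m) :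
    1 / (2 * (m : ℝ)) ≤ |Real.sin (Real.pi * (m * (Real.sqrt 2 - 1)))| := by
  have hm0 : (0 : ℝ) < m := by exact_mod_cast hm
  set x : ℝ := m * (Real.sqrt 2 - 1) with hx
  set k : ℤ := round x with hk
  have h1 : |x - k| ≤ 1 / 2 := by rw [hk]; exact abs_sub_round x
  have h2 := jordan h1
  have h3 : |Real.sin (Real.pi * (x - k))| = |Real.sin (Real.pi * x)| := by
    rw [mul_sub, mul_comm Real.pi (k : ℝ), Real.sin_sub_int_mul_pi, abs_mul]
    rcases Int.even_or_odd k with h | h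
    · rw [h.neg_one_zpow]; simp
    · rw [h.neg_one_zpow]; simp
  rw [← h3]
  refine le_trans ?_ h2
  have h4 : 1 / (4 * (m : ℝ)) ≤ |x - k| := by
    by_contra hcon
    push Not at hcon
    set K : ℤ := m + k with hK
    have e1 : x - k = m * Real.sqrt 2 - K := by rw [hx, hK]; push_cast; ring
    rw [e1] at hcon
    have hs := Real.sq_sqrt (show (0 : ℝ) ≤ 2 by norm_num)
    have hs1 : Real.sqrt 2 < 1.5 := by
      rw [Real.sqrt_lt' (by norm_num)]; norm_num
    have hs0 : 0 < Real.sqrt 2 := Real.sqrt_pos.2 (by norm_num)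
    have h5 : 1 / (4 * (m : ℝ)) ≤ 1 / 4 := by
      have : (1 : ℝ) ≤ m := by exact_mod_cast hm
      rw [div_le_div_iff₀ (by positivity) (by norm_num)]; linarith
    have hm1 : (1 : ℝ) ≤ m := by exact_mod_cast hm
    have h6 : |m * Real.sqrt 2 + K| < 4 * m := by
      have := abs_lt.1 (hcon.trans_le h5)
      rw [abs_lt]
      constructor <;> nlinarith [this.1, this.2]
    have h7 : |m * Real.sqrt 2 - K| * |m * Real.sqrt 2 + K| < 1 := by
      calc |m * Real.sqrt 2 - K| * |m * Real.sqrt 2 + K| ≤ |m * Real.sqrt 2 - K| * (4 * m) := by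
            gcongr
        _ < 1 / (4 * (m : ℝ)) * (4 * m) := by gcongr
        _ = 1 := by field_simp
    rw [← abs_mul] at h7
    have e2 : (m * Real.sqrt 2 - K) * (m * Real.sqrt 2 + K) = ((2 * m ^ 2 - K ^ 2 : ℤ) : ℝ) := by
      push_cast
      nlinarith [hs]
    rw [e2, ← Int.cast_abs] at h7
    have h8 : |(2 * (m : ℤ) ^ 2 - K ^ 2)| < 1 := by exact_mod_cast h7
    have h9 : 2 * (m : ℤ) ^ 2 - K ^ 2 = 0 := Int.abs_lt_one_iff.1 h8
    have hirr := irrational_sqrt_two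
    apply hirr
    refine ⟨|(K : ℚ)| / m, ?_⟩
    have h10 : ((K : ℝ)) ^ 2 = 2 * (m : ℝ) ^ 2 := by
      have : (K : ℤ) ^ 2 = 2 * (m : ℤ) ^ 2 := by linarith
      exact_mod_cast this
    push_cast
    have h11 : |(K : ℝ)| / m = Real.sqrt 2 := by
      symm
      rw [Real.sqrt_eq_iff_mul_self_eq (by norm_num) (by positivity)]
      rw [← pow_two, div_pow, sq_abs, h10]
      field_simp
    exact h11
  calc 1 / (2 * (m : ℝ)) = 2 * (1 / (4 * (m : ℝ))) := by field_simp; ring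
    _ ≤ _ := by gcongr

end Pool.Agent.R612.OB
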