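import Pool.Agent.R612.OB.Ser

/-!
# The one step estimate
-/

open MeasureTheory Set
open scoped ENNReal

namespace Pool.Agent.R612.OB

open Pool.Agent.R213.OB

/-- the observation points -/
noncomputable def xx (L l : ℕ) : ℝ × ℝ := (1 / 4 + l / (16 * L), 1 / 4 + l / (16 * L) + cc)

theorem two_pow_bound (L : ℕ) : (L + 1) ^ 2 ≤ 4 ^ L := by
  induction L with
  | zero => norm_num
  | succ L ih =>
    rw [pow_succ 4 L]
    have h : (L + 1 + 1) ^ 2 ≤ (L + 1) ^ 2 * 4 :=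
      calc (L + 1 + 1) ^ 2 ≤ (2 * (L + 1)) ^ 2 := Nat.pow_le_pow_left (by omega) 2
        _ = (L + 1) ^ 2 * 4 := by ring
    exact h.trans (Nat.mul_le_mul_right 4 ih)

theorem bern3 (L : ℕ) : 2 * L + 1 ≤ 3 ^ L := by
  induction L with
  | zero => norm_num
  | succ L ih => rw [pow_succ]; omega

theorem bern5 (L : ℕ) : 4 * L + 1 ≤ 5 ^ L := by
  induction L with
  | zero => norm_num
  | succ L ih => rw [pow_succ]; omega

/-- The pointwise estimate. -/
theorem pt : ∃ M : ℝ, 1 ≤ M ∧ ∀ (a : ℕ → ℕ → ℝ) (B : ℝ), (∀ n m, |a n m| ≤ B) →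
    (∀ m, a 0 m = 0) → (∀ n, a n 0 = 0) → ∀ L : ℕ, 1 ≤ L → ∀ t0 τ t : ℝ, 0 < t0 → 0 < τ →
      t0 + τ ≤ t → AA a t ≤ M ^ L *
        (∑ k ∈ Finset.range (2 * L + 1), ∑ l ∈ Finset.range (4 * L + 1),
          |uu a (t + k / (2 * L) ^ 2) (xx L l)| +
          Real.exp (-(Real.pi ^ 2 * L ^ 2 * τ)) * AA a t0) := by
  obtain ⟨M, hM, hlow⟩ := low
  refine ⟨8 * M, by linarith, ?_⟩
  intro a B ha ha1 ha2 L hL t0 τ t ht0 hτ ht
  set ε := Real.exp (-(Real.pi ^ 2 * L ^ 2 * τ)) * AA a t0 with hε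
  have hε0 : 0 ≤ ε := mul_nonneg (Real.exp_pos _).le (AA_nonneg a t0)
  set S := ∑ k ∈ Finset.range (2 * L + 1), ∑ l ∈ Finset.range (4 * L + 1),
          |uu a (t + k / (2 * L) ^ 2) (xx L l)| with hS
  have hS0 : 0 ≤ S := Finset.sum_nonneg fun _ _ => Finset.sum_nonneg fun _ _ => abs_nonneg _
  have h1 := hlow L hL a t (S + ε) (by linarith) (by
    intro k hk l hl
    have h2 := uu_split ha ht0 hτ (t := t + k / (2 * L) ^ 2) (by
      have : (0 : ℝ) ≤ k / (2 * L) ^ 2 := by positivity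
      linarith) L (xx L l)
    have h3 : |uu a (t + k / (2 * L) ^ 2) (xx L l)| ≤ S := by
      rw [hS]
      refine le_trans ?_ (Finset.single_le_sum (f := fun k : ℕ => ∑ l ∈ Finset.range (4 * L + 1),
          |uu a (t + k / (2 * L) ^ 2) (xx L l)|)
        (fun _ _ => Finset.sum_nonneg fun _ _ => abs_nonneg _)
        (Finset.mem_range.2 (show k < 2 * L + 1 by omega)))
      exact Finset.single_le_sum (f := fun l : ℕ => |uu a (t + k / (2 * L) ^ 2) (xx L l)|)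
        (fun _ _ => abs_nonneg _) (Finset.mem_range.2 (show l < 4 * L + 1 by omega))
    have h4 : ∑ n ∈ Finset.range (L + 1), ∑ m ∈ Finset.range (L + 1),
        a n m * Real.exp (-(lam n m * (t + k / (2 * L) ^ 2))) *
        (Real.sin (Real.pi * (n * (1 / 4 + l / (16 * L)))) *
          Real.sin (Real.pi * (m * (1 / 4 + l / (16 * L) + cc)))) =
        ∑ k' ∈ lo L, a k'.1 k'.2 * Real.exp (-(lam k'.1 k'.2 * (t + k / (2 * L) ^ 2))) *
          ef k'.1 k'.2 (xx L l) := by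
      rw [lo, Finset.sum_product]
      refine Finset.sum_congr rfl fun n _ => Finset.sum_congr rfl fun m _ => ?_
      unfold ef xx
      dsimp only
      rw [show Real.pi * (n * (1 / 4 + l / (16 * L))) = n * Real.pi * (1 / 4 + l / (16 * L)) by ring,
        show Real.pi * (m * (1 / 4 + l / (16 * L) + cc)) =
          m * Real.pi * (1 / 4 + l / (16 * L) + cc) by ring]
    rw [h4]
    linarith)
  have hML : (0 : ℝ) ≤ M ^ L := by positivity
  have h2 : ∀ k ∈ lo L, |a k.1 k.2| * Real.exp (-(lam k.1 k.2 * t)) ≤ M ^ L * (S + ε) := by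
    intro k hk
    simp only [lo, Finset.mem_product, Finset.mem_range] at hk
    have h0 : 0 ≤ M ^ L * (S + ε) := mul_nonneg hML (by linarith)
    rcases Nat.eq_zero_or_pos k.1 with h | h
    · rw [h, ha1]; simpa using h0
    rcases Nat.eq_zero_or_pos k.2 with h' | h'
    · rw [h', ha2]; simpa using h0
    exact h1 k.1 k.2 h (by omega) h' (by omega)
  have h3 := AA_split ha ht0 hτ ht L
  have h4 := Finset.sum_le_card_nsmul _ _ _ h2
  have h5 : (lo L).card = (L + 1) ^ 2 := by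
    rw [lo, Finset.card_product, Finset.card_range]; ring
  rw [h5, nsmul_eq_mul] at h4
  have h6 : (((L + 1) ^ 2 : ℕ) : ℝ) ≤ 4 ^ L := by exact_mod_cast two_pow_bound L
  have h7 : (1 : ℝ) ≤ M ^ L := one_le_pow₀ hM
  have h8 : (1 : ℝ) ≤ 4 ^ L := one_le_pow₀ (by norm_num)
  have h9 : (2 : ℝ) ≤ 2 ^ L := by
    calc (2 : ℝ) = 2 ^ 1 := by norm_num
      _ ≤ 2 ^ L := pow_le_pow_right₀ (by norm_num) hL
  have h10 : (8 * M) ^ L = 2 ^ L * (4 ^ L * M ^ L) := by
    rw [← mul_pow, ← mul_pow]; ring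
  have hSε : 0 ≤ S + ε := by linarith
  have h12 : 1 ≤ 4 ^ L * M ^ L := by nlinarith
  have h11 : (((L + 1) ^ 2 : ℕ) : ℝ) * (M ^ L * (S + ε)) ≤ 4 ^ L * (M ^ L * (S + ε)) := by gcongr
  calc AA a t ≤ 4 ^ L * (M ^ L * (S + ε)) + ε := by linarith
    _ ≤ 4 ^ L * M ^ L * (S + ε) + 4 ^ L * M ^ L * (S + ε) := by nlinarith
    _ = 2 * (4 ^ L * M ^ L) * (S + ε) := by ring
    _ ≤ 2 ^ L * (4 ^ L * M ^ L) * (S + ε) := by gcongr
    _ = (8 * M) ^ L * (S + ε) := by rw [h10]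

theorem shift (F : ℝ → ℝ≥0∞) (α β δ : ℝ) :
    ∫⁻ t in Ioc α β, F (t + δ) = ∫⁻ t in Ioc (α + δ) (β + δ), F t := by
  rw [← lintegral_indicator measurableSet_Ioc, ← lintegral_indicator measurableSet_Ioc]
  rw [← lintegral_add_right_eq_self (fun t => (Ioc (α + δ) (β + δ)).indicator F t) δ]
  congr 1
  ext t
  simp only [indicator, mem_Ioc, add_lt_add_iff_right, add_le_add_iff_right]

/-- The integrated estimate. -/
theorem lr : ∃ M : ℝ, 1 ≤ M ∧ ∀ (a : ℕ → ℕ → ℝ) (B : ℝ), (∀ n m, |a n m| ≤ B) →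
    (∀ m, a 0 m = 0) → (∀ n, a n 0 = 0) → ∀ g : ℝ → ℝ≥0∞,
    (∀ t x : ℝ, 0 < t → 1 / 4 ≤ x → x ≤ 1 / 2 → ENNReal.ofReal |uu a t (x, x + cc)| ≤ g t) →
    ∀ L : ℕ, 1 ≤ L → ∀ t0 τ : ℝ, 0 < t0 → 0 < τ → 1 ≤ L * τ →
      ENNReal.ofReal (AA a (t0 + 2 * τ)) ≤
        ENNReal.ofReal (2 / τ * M ^ L) * (∫⁻ t in Ioc (t0 + τ) (t0 + 2 * τ), g t) +
        ENNReal.ofReal (M ^ L * (Real.exp (-(Real.pi ^ 2 * L ^ 2 * τ)) * AA a t0)) := by
  obtain ⟨M, hM, hpt⟩ := pt
  refine ⟨15 * M, by linarith, ?_⟩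
  intro a B ha ha1 ha2 g hg L hL t0 τ ht0 hτ hLτ
  have hL0 : (0 : ℝ) < L := by exact_mod_cast hL
  set ε := Real.exp (-(Real.pi ^ 2 * L ^ 2 * τ)) * AA a t0 with hε
  have hε0 : 0 ≤ ε := mul_nonneg (Real.exp_pos _).le (AA_nonneg a t0)
  set o := ∫⁻ t in Ioc (t0 + τ) (t0 + 2 * τ), g t with ho
  have hML : (0 : ℝ) ≤ M ^ L := by positivity
  have hvol : volume (Ioc (t0 + τ) (t0 + 3 / 2 * τ)) = ENNReal.ofReal (τ / 2) := by
    rw [Real.volume_Ioc]; congr 1; ring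
  have hp : ∀ t ∈ Ioc (t0 + τ) (t0 + 3 / 2 * τ), ENNReal.ofReal (AA a (t0 + 2 * τ)) ≤
      ENNReal.ofReal (M ^ L) * (∑ k ∈ Finset.range (2 * L + 1), ∑ l ∈ Finset.range (4 * L + 1),
        ENNReal.ofReal |uu a (t + k / (2 * L) ^ 2) (xx L l)|) + ENNReal.ofReal (M ^ L * ε) := by
    intro t ht
    have h1 : AA a (t0 + 2 * τ) ≤ AA a t := AA_anti ha (by linarith [ht.1]) (by linarith [ht.2])
    have h2 := hpt a B ha ha1 ha2 L hL t0 τ t ht0 hτ ht.1.le
    rw [mul_add] at h2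
    have h3 := ENNReal.ofReal_le_ofReal (h1.trans h2)
    refine h3.trans (le_of_eq ?_)
    rw [ENNReal.ofReal_add (mul_nonneg hML (Finset.sum_nonneg fun _ _ =>
      Finset.sum_nonneg fun _ _ => abs_nonneg _)) (mul_nonneg hML hε0), ENNReal.ofReal_mul hML,
      ENNReal.ofReal_sum_of_nonneg (fun _ _ => Finset.sum_nonneg fun _ _ => abs_nonneg _)]
    congr 2
    refine Finset.sum_congr rfl fun k _ => ?_
    rw [ENNReal.ofReal_sum_of_nonneg (fun _ _ => abs_nonneg _)]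
  have hmeas : ∀ k l : ℕ, AEMeasurable (fun t => ENNReal.ofReal |uu a (t + k / (2 * L) ^ 2) (xx L l)|)
      (volume.restrict (Ioc (t0 + τ) (t0 + 3 / 2 * τ))) := by
    intro k l
    have h1 : ContinuousOn (fun t => uu a (t + k / (2 * L) ^ 2) (xx L l))
        (Ioc (t0 + τ) (t0 + 3 / 2 * τ)) := by
      refine (uu_cont ha ht0 (xx L l)).comp (f := fun t : ℝ => t + k / (2 * L) ^ 2)
        (by fun_prop) ?_
      intro t ht
      have : (0 : ℝ) ≤ k / (2 * L) ^ 2 := by positivity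
      rw [mem_Ici]
      linarith [ht.1]
    exact (h1.abs.aemeasurable measurableSet_Ioc).ennreal_ofReal
  have hone : ∀ k ∈ Finset.range (2 * L + 1), ∀ l ∈ Finset.range (4 * L + 1),
      ∫⁻ t in Ioc (t0 + τ) (t0 + 3 / 2 * τ),
        ENNReal.ofReal |uu a (t + k / (2 * L) ^ 2) (xx L l)| ≤ o := by
    intro k hk l hl
    rw [Finset.mem_range] at hk hl
    have hk' : (k : ℝ) ≤ 2 * L := by
      have : k ≤ 2 * L := by omega
      exact_mod_cast this
    have hl' : (l : ℝ) ≤ 4 * L := by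
      have : l ≤ 4 * L := by omega
      exact_mod_cast this
    have hδ0 : (0 : ℝ) ≤ k / (2 * L) ^ 2 := by positivity
    have hδ : (k : ℝ) / (2 * L) ^ 2 ≤ τ / 2 := by
      rw [div_le_iff₀ (by positivity)]
      nlinarith
    rw [shift (fun t => ENNReal.ofReal |uu a t (xx L l)|)]
    calc _ ≤ ∫⁻ t in Ioc (t0 + τ + k / (2 * L) ^ 2) (t0 + 3 / 2 * τ + k / (2 * L) ^ 2), g t := by
          refine setLIntegral_mono' measurableSet_Ioc ?_
          intro t ht
          refine hg t _ (by linarith [ht.1]) ?_ ?_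
          · have : (0 : ℝ) ≤ l / (16 * L) := by positivity
            linarith
          · have : (l : ℝ) / (16 * L) ≤ 1 / 4 := by
              rw [div_le_iff₀ (by positivity)]; linarith
            linarith
      _ ≤ o := by
          refine lintegral_mono_set (Ioc_subset_Ioc ?_ ?_) <;> linarith
  have hsum : ∑ k ∈ Finset.range (2 * L + 1), ∑ l ∈ Finset.range (4 * L + 1),
      ∫⁻ t in Ioc (t0 + τ) (t0 + 3 / 2 * τ),
        ENNReal.ofReal |uu a (t + k / (2 * L) ^ 2) (xx L l)| ≤ ENNReal.ofReal (15 ^ L) * o := by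
    calc _ ≤ ∑ k ∈ Finset.range (2 * L + 1), ∑ l ∈ Finset.range (4 * L + 1), o :=
          Finset.sum_le_sum fun k hk => Finset.sum_le_sum fun l hl => hone k hk l hl
      _ = ((((2 * L + 1) * (4 * L + 1) : ℕ)) : ℝ≥0∞) * o := by
          rw [Finset.sum_const, Finset.sum_const, Finset.card_range, Finset.card_range,
            nsmul_eq_mul, nsmul_eq_mul, ← mul_assoc, Nat.cast_mul]
      _ ≤ (((15 ^ L : ℕ)) : ℝ≥0∞) * o := by
          gcongr
          calc (2 * L + 1) * (4 * L + 1) ≤ 3 ^ L * 5 ^ L := Nat.mul_le_mul (bern3 L) (bern5 L)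
            _ = 15 ^ L := by rw [← mul_pow]; norm_num
      _ = ENNReal.ofReal (15 ^ L) * o := by
          congr 1
          rw [← ENNReal.ofReal_natCast]
          push_cast
          rfl
  have hI : ENNReal.ofReal (AA a (t0 + 2 * τ)) * ENNReal.ofReal (τ / 2) ≤
      ENNReal.ofReal (M ^ L) * (ENNReal.ofReal (15 ^ L) * o) +
        ENNReal.ofReal (M ^ L * ε) * ENNReal.ofReal (τ / 2) := by
    calc _ = ∫⁻ t in Ioc (t0 + τ) (t0 + 3 / 2 * τ), ENNReal.ofReal (AA a (t0 + 2 * τ)) := by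
          rw [setLIntegral_const, hvol]
      _ ≤ ∫⁻ t in Ioc (t0 + τ) (t0 + 3 / 2 * τ),
          (ENNReal.ofReal (M ^ L) * (∑ k ∈ Finset.range (2 * L + 1),
            ∑ l ∈ Finset.range (4 * L + 1),
            ENNReal.ofReal |uu a (t + k / (2 * L) ^ 2) (xx L l)|) + ENNReal.ofReal (M ^ L * ε)) :=
          setLIntegral_mono' measurableSet_Ioc hp
      _ = ENNReal.ofReal (M ^ L) * (∑ k ∈ Finset.range (2 * L + 1),
            ∑ l ∈ Finset.range (4 * L + 1), ∫⁻ t in Ioc (t0 + τ) (t0 + 3 / 2 * τ),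
            ENNReal.ofReal |uu a (t + k / (2 * L) ^ 2) (xx L l)|) +
            ENNReal.ofReal (M ^ L * ε) * ENNReal.ofReal (τ / 2) := by
          rw [lintegral_add_right _ measurable_const, lintegral_const_mul' _ _ ENNReal.ofReal_ne_top,
            setLIntegral_const, hvol, lintegral_finsetSum' _ (fun k _ =>
              Finset.aemeasurable_fun_sum _ fun l _ => hmeas k l)]
          congr 2
          refine Finset.sum_congr rfl fun k _ => ?_
          rw [lintegral_finsetSum' _ (fun l _ => hmeas k l)]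
      _ ≤ _ := by gcongr
  have h1 : ENNReal.ofReal (τ / 2) * ENNReal.ofReal (2 / τ) = 1 := by
    rw [← ENNReal.ofReal_mul (by positivity), show τ / 2 * (2 / τ) = 1 by field_simp,
      ENNReal.ofReal_one]
  have h2 : (M : ℝ) ^ L ≤ (15 * M) ^ L := pow_le_pow_left₀ (by linarith) (by linarith) L
  calc ENNReal.ofReal (AA a (t0 + 2 * τ)) =
        ENNReal.ofReal (AA a (t0 + 2 * τ)) * ENNReal.ofReal (τ / 2) * ENNReal.ofReal (2 / τ) := by
        rw [mul_assoc, h1, mul_one]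
    _ ≤ (ENNReal.ofReal (M ^ L) * (ENNReal.ofReal (15 ^ L) * o) +
        ENNReal.ofReal (M ^ L * ε) * ENNReal.ofReal (τ / 2)) * ENNReal.ofReal (2 / τ) := by gcongr
    _ = ENNReal.ofReal (2 / τ) * ENNReal.ofReal (15 ^ L) * ENNReal.ofReal (M ^ L) * o +
        ENNReal.ofReal (M ^ L * ε) * (ENNReal.ofReal (τ / 2) * ENNReal.ofReal (2 / τ)) := by ring
    _ = ENNReal.ofReal (2 / τ * (15 * M) ^ L) * o + ENNReal.ofReal (M ^ L * ε) := by
        rw [h1, mul_one, mul_pow, ← ENNReal.ofReal_mul (by positivity),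
          ← ENNReal.ofReal_mul (by positivity), mul_assoc (2 / τ)]
    _ ≤ _ := by
        gcongr

end Pool.Agent.R612.OB
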