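import Pool.Agent.R612.OB.Alg
import Pool.Agent.R213.OB.Defs

/-!
# The low frequencies are controlled by samples on the line
-/

open Finset

namespace Pool.Agent.R612.OB

open Pool.Agent.R213.OB

/-- the slope one line meets the axis at `√2 - 1` -/
noncomputable def cc : ℝ := Real.sqrt 2 - 1

/-- odd extension of a sine sum -/
theorem odd_sum (F : ℕ → ℂ) (s : ℝ) (L : ℕ) :
    ∑ k ∈ Icc (-(L : ℤ)) L, ((Int.sign k : ℤ) : ℂ) * F k.natAbs * e (k * s) =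
      ∑ n ∈ range (L + 1), F n * (2 * Complex.I * (Real.sin (Real.pi * (n * s)) : ℂ)) := by
  induction L with
  | zero => simp
  | succ L ih =>
    have e1 : Icc (-((L + 1 : ℕ) : ℤ)) ((L + 1 : ℕ) : ℤ) =
        insert ((L + 1 : ℕ) : ℤ) (insert (-((L + 1 : ℕ) : ℤ)) (Icc (-(L : ℤ)) L)) := by
      ext k
      simp only [mem_Icc, mem_insert]
      omega
    rw [e1, Finset.sum_insert (by simp only [mem_insert, mem_Icc]; omega),
      Finset.sum_insert (by simp only [mem_Icc]; omega), ih, Finset.sum_range_succ _ (L + 1)]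
    have h1 : Int.sign ((L + 1 : ℕ) : ℤ) = 1 := Int.sign_eq_one_of_pos (by positivity)
    have h2 : Int.sign (-((L + 1 : ℕ) : ℤ)) = -1 := by rw [Int.sign_neg, h1]
    rw [h1, h2, Int.natAbs_neg, Int.natAbs_natCast]
    have h3 := e_sub_neg (((L + 1 : ℕ) : ℝ) * s)
    have h4 : ((-((L + 1 : ℕ) : ℤ) : ℤ) : ℝ) * s = -(((L + 1 : ℕ) : ℝ) * s) := by push_cast; ring
    have h5 : ((((L + 1 : ℕ) : ℤ) : ℤ) : ℝ) * s = ((L + 1 : ℕ) : ℝ) * s := by push_cast; ring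
    rw [h4, h5, ← h3]
    push_cast
    ring

/-- the coefficients after the odd extension -/
noncomputable def cf (a : ℕ → ℕ → ℝ) (t : ℝ) (k : ℤ × ℤ) : ℂ :=
  -(1 / 4) * ((Int.sign k.1 : ℤ) : ℂ) * ((Int.sign k.2 : ℤ) : ℂ) *
    ((a k.1.natAbs k.2.natAbs * Real.exp (-(lam k.1.natAbs k.2.natAbs * t)) : ℝ) : ℂ)

/-- the index set -/
noncomputable def bx (L : ℕ) : Finset (ℤ × ℤ) := Icc (-(L : ℤ)) L ×ˢ Icc (-(L : ℤ)) L

theorem odd_sum2 (a : ℕ → ℕ → ℝ) (t s s' : ℝ) (L : ℕ) :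
    ∑ k ∈ bx L, cf a t k * (e (k.1 * s) * e (k.2 * s')) =
      ((∑ n ∈ range (L + 1), ∑ m ∈ range (L + 1), a n m * Real.exp (-(lam n m * t)) *
        (Real.sin (Real.pi * (n * s)) * Real.sin (Real.pi * (m * s'))) : ℝ) : ℂ) := by
  unfold bx
  rw [Finset.sum_product]
  have h1 : ∀ k1 ∈ Icc (-(L : ℤ)) (L : ℤ), ∑ k2 ∈ Icc (-(L : ℤ)) (L : ℤ),
      cf a t (k1, k2) * (e (k1 * s) * e (k2 * s')) =
      ((Int.sign k1 : ℤ) : ℂ) * (-(1 / 4) * ∑ m ∈ range (L + 1),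
        ((a k1.natAbs m * Real.exp (-(lam k1.natAbs m * t)) : ℝ) : ℂ) *
          (2 * Complex.I * (Real.sin (Real.pi * (m * s')) : ℂ))) * e (k1 * s) := by
    intro k1 _
    rw [← odd_sum (fun m => ((a k1.natAbs m * Real.exp (-(lam k1.natAbs m * t)) : ℝ) : ℂ)) s' L,
      Finset.mul_sum, Finset.mul_sum, Finset.sum_mul]
    refine Finset.sum_congr rfl fun k2 _ => ?_
    simp only [cf]
    ring
  rw [Finset.sum_congr rfl h1]
  rw [odd_sum (fun n => -(1 / 4) * ∑ m ∈ range (L + 1),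
        ((a n m * Real.exp (-(lam n m * t)) : ℝ) : ℂ) *
          (2 * Complex.I * (Real.sin (Real.pi * (m * s')) : ℂ))) s L]
  rw [Complex.ofReal_sum]
  refine Finset.sum_congr rfl fun n _ => ?_
  rw [Complex.ofReal_sum, Finset.mul_sum, Finset.sum_mul]
  refine Finset.sum_congr rfl fun m _ => ?_
  have hI : Complex.I * Complex.I = -1 := Complex.I_mul_I
  push_cast
  linear_combination (-(a n m : ℂ) * Complex.exp (-((lam n m : ℂ) * t)) *
    Complex.sin (Real.pi * (m * s')) * Complex.sin (Real.pi * (n * s))) * hI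

theorem lam_natAbs (k : ℤ × ℤ) : lam k.1.natAbs k.2.natAbs =
    Real.pi ^ 2 * (((k.1 + k.2 : ℤ) : ℝ) ^ 2 + (((k.1 - k.2).natAbs : ℕ) : ℝ) ^ 2) / 2 := by
  unfold lam
  have h : ∀ z : ℤ, ((z.natAbs : ℕ) : ℝ) ^ 2 = (z : ℝ) ^ 2 := by
    intro z
    rw [Nat.cast_natAbs, Int.cast_abs, sq_abs]
  rw [h, h, h]
  push_cast
  ring

/-- the survivors -/
theorem surv : ∃ Q : ℝ, 1 ≤ Q ∧ ∀ L : ℕ, 1 ≤ L → ∀ (a : ℕ → ℕ → ℝ) (t G : ℝ), 0 ≤ G →
    (∀ k ≤ 2 * L, ∀ l ≤ 4 * L, |∑ n ∈ range (L + 1), ∑ m ∈ range (L + 1),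
      a n m * Real.exp (-(lam n m * (t + k / (2 * L) ^ 2))) *
        (Real.sin (Real.pi * (n * (1 / 4 + l / (16 * L)))) *
          Real.sin (Real.pi * (m * (1 / 4 + l / (16 * L) + cc))))| ≤ G) →
    ∀ K0 : ℤ, |K0| ≤ 2 * L → ∀ J0 : ℕ, J0 ≤ 2 * L →
      ‖∑ k ∈ (bx L).filter (fun k => k.1 + k.2 = K0 ∧ (k.1 - k.2).natAbs = J0),
        cf a t k * (e ((k.1 + k.2 : ℤ) / 4) * e (k.2 * cc))‖ ≤ Q ^ (2 * L) * G := by
  obtain ⟨μ, hμ0, hμ1, hμ⟩ := pj
  refine ⟨1152 / μ, by rw [le_div_iff₀ hμ0]; linarith, ?_⟩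
  intro L hL a t G hG hs K0 hK0 J0 hJ0
  set N : ℕ := 2 * L with hN
  have hN1 : 1 ≤ N := by omega
  have hN0 : (0 : ℝ) < N := by exact_mod_cast hN1
  have hL0 : (0 : ℝ) < L := by exact_mod_cast hL
  have hNL : (N : ℝ) = 2 * L := by rw [hN]; push_cast; ring
  set i0 : ℕ := (K0 + N).toNat with hi0
  have hi0' : ((i0 : ℕ) : ℤ) = K0 + N := by
    rw [hi0, Int.toNat_of_nonneg]
    have := (abs_le.1 hK0).1
    rw [hN]; push_cast; linarith
  have hi0N : i0 ≤ 2 * N := by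
    have := (abs_le.1 hK0).2
    have h2 : ((i0 : ℕ) : ℤ) ≤ 2 * N := by rw [hi0', hN]; push_cast; linarith
    exact_mod_cast h2
  -- the two families of nodes
  let ρr : ℕ → ℝ := fun j => Real.exp (-(Real.pi ^ 2 / (2 * (N : ℝ) ^ 2) *
    ((K0 : ℝ) ^ 2 + (j : ℝ) ^ 2)))
  let ρ : ℕ → ℂ := fun j => ((ρr j : ℝ) : ℂ)
  let σ : ℕ → ℂ := fun j => e (((j : ℝ) - N) / (8 * N))
  let z : ℤ × ℤ → ℂ := fun k => ((Real.exp (-(lam k.1.natAbs k.2.natAbs / (N : ℝ) ^ 2)) : ℝ) : ℂ)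
  let w : ℤ × ℤ → ℂ := fun k => e (((k.1 + k.2 : ℤ) : ℝ) / (8 * N))
  let c : ℤ × ℤ → ℂ := fun k => cf a t k * (e (((k.1 + k.2 : ℤ) : ℝ) / 4) * e (k.2 * cc))
  have hmain := diff2 (bx L) z w ρ σ ((range (N + 1)).erase J0) ((range (2 * N + 1)).erase i0) c G (by
    intro k hk l hl
    rw [Finset.card_erase_of_mem (mem_range.2 (by omega)), card_range, Nat.add_sub_cancel] at hk hl
    have h1 := hs k hk l (by omega)
    have h2 : ∑ i ∈ bx L, c i * z i ^ k * w i ^ l =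
        ((∑ n ∈ range (L + 1), ∑ m ∈ range (L + 1),
        a n m * Real.exp (-(lam n m * (t + k / (2 * L) ^ 2))) *
        (Real.sin (Real.pi * (n * (1 / 4 + l / (16 * L)))) *
          Real.sin (Real.pi * (m * (1 / 4 + l / (16 * L) + cc)))) : ℝ) : ℂ) := by
      rw [← odd_sum2 a (t + k / (2 * L) ^ 2)]
      refine Finset.sum_congr rfl fun i _ => ?_
      have e1 : z i ^ k = ((Real.exp (-(lam i.1.natAbs i.2.natAbs * (k / (2 * L) ^ 2))) : ℝ) : ℂ) := by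
        change ((Real.exp (-(lam i.1.natAbs i.2.natAbs / (N : ℝ) ^ 2)) : ℝ) : ℂ) ^ k = _
        rw [← Complex.ofReal_pow, ← Real.exp_nat_mul, hNL]
        congr 2
        ring
      have e2 : w i ^ l = e (((i.1 + i.2 : ℤ) : ℝ) * (l / (16 * L))) := by
        change e (((i.1 + i.2 : ℤ) : ℝ) / (8 * N)) ^ l = _
        rw [e_pow, hNL]
        congr 1
        field_simp
        ring
      have e3 : cf a (t + k / (2 * L) ^ 2) i = cf a t i *
          ((Real.exp (-(lam i.1.natAbs i.2.natAbs * (k / (2 * L) ^ 2))) : ℝ) : ℂ) := by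
        unfold cf
        rw [mul_add, neg_add, Real.exp_add]
        push_cast
        ring
      have e4 : e (i.1 * (1 / 4 + l / (16 * L))) * e (i.2 * (1 / 4 + l / (16 * L) + cc)) =
          (e (((i.1 + i.2 : ℤ) : ℝ) / 4) * e (i.2 * cc)) *
            e (((i.1 + i.2 : ℤ) : ℝ) * (l / (16 * L))) := by
        rw [← e_add, ← e_add, ← e_add]
        congr 1
        push_cast
        ring
      change cf a t i * (e (((i.1 + i.2 : ℤ) : ℝ) / 4) * e (i.2 * cc)) * z i ^ k * w i ^ l = _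
      rw [e1, e2, e3, e4]
      ring
    rw [h2, Complex.norm_real, Real.norm_eq_abs]
    exact h1)
  -- the norms of the nodes
  have hρ : ∏ r ∈ (range (N + 1)).erase J0, (1 + ‖ρ r‖) ≤ 2 ^ N := by
    have h1 : ∏ r ∈ (range (N + 1)).erase J0, (1 + ‖ρ r‖) ≤
        ∏ r ∈ (range (N + 1)).erase J0, (2 : ℝ) := by
      refine Finset.prod_le_prod (fun j _ => by positivity) fun j _ => ?_
      have : ‖ρ j‖ ≤ 1 := by
        change ‖((ρr j : ℝ) : ℂ)‖ ≤ 1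
        rw [Complex.norm_real, Real.norm_eq_abs, abs_of_pos (Real.exp_pos _)]
        apply Real.exp_le_one_iff.2
        have : 0 ≤ Real.pi ^ 2 / (2 * (N : ℝ) ^ 2) * ((K0 : ℝ) ^ 2 + (j : ℝ) ^ 2) := by positivity
        linarith
      linarith
    refine h1.trans (le_of_eq ?_)
    rw [Finset.prod_const, Finset.card_erase_of_mem (mem_range.2 (by omega)), card_range,
      Nat.add_sub_cancel]
  have hσ : ∏ r ∈ (range (2 * N + 1)).erase i0, (1 + ‖σ r‖) = 2 ^ (2 * N) := by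
    have : ∀ r, 1 + ‖σ r‖ = 2 := fun r => by
      change 1 + ‖e (((r : ℝ) - N) / (8 * N))‖ = 2
      rw [norm_e]; norm_num
    simp only [this]
    rw [Finset.prod_const, Finset.card_erase_of_mem (mem_range.2 (by omega)), card_range,
      Nat.add_sub_cancel]
  -- the surviving terms
  set Pz : ℂ := ∏ r ∈ (range (N + 1)).erase J0, (ρ J0 - ρ r) with hPz
  set Pw : ℂ := ∏ r ∈ (range (2 * N + 1)).erase i0, (σ i0 - σ r) with hPw
  have hsum : ∑ i ∈ bx L, c i * (∏ r ∈ (range (N + 1)).erase J0, (z i - ρ r)) *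
      ∏ s ∈ (range (2 * N + 1)).erase i0, (w i - σ s) =
      (∑ i ∈ (bx L).filter (fun k => k.1 + k.2 = K0 ∧ (k.1 - k.2).natAbs = J0), c i) * (Pz * Pw) := by
    rw [Finset.sum_mul, Finset.sum_filter]
    refine Finset.sum_congr rfl fun i hi => ?_
    simp only [bx, mem_product, mem_Icc] at hi
    have hw : w i = σ (i.1 + i.2 + N).toNat := by
      change e (((i.1 + i.2 : ℤ) : ℝ) / (8 * N)) = e (((((i.1 + i.2 + N).toNat : ℕ) : ℝ) - N) / (8 * N))
      congr 2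
      have h1 : (((i.1 + i.2 + N).toNat : ℕ) : ℤ) = i.1 + i.2 + N := by
        rw [Int.toNat_of_nonneg]; omega
      have h2 : (((i.1 + i.2 + N).toNat : ℕ) : ℝ) = ((i.1 + i.2 : ℤ) : ℝ) + N := by
        have : ((((i.1 + i.2 + N).toNat : ℕ) : ℤ) : ℝ) = ((i.1 + i.2 + N : ℤ) : ℝ) := by rw [h1]
        push_cast at this ⊢
        exact this
      rw [h2]; ring
    by_cases hK : i.1 + i.2 = K0
    · have hwi : w i = σ i0 := by rw [hw, hK]
      have hzi : z i = ρ (i.1 - i.2).natAbs := by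
        change ((Real.exp (-(lam i.1.natAbs i.2.natAbs / (N : ℝ) ^ 2)) : ℝ) : ℂ) =
          ((Real.exp (-(Real.pi ^ 2 / (2 * (N : ℝ) ^ 2) *
            ((K0 : ℝ) ^ 2 + (((i.1 - i.2).natAbs : ℕ) : ℝ) ^ 2))) : ℝ) : ℂ)
        rw [lam_natAbs, hK]
        congr 2
        field_simp
      by_cases hJ : (i.1 - i.2).natAbs = J0
      · rw [if_pos ⟨hK, hJ⟩, hwi, hzi, hJ]
        ring
      · rw [if_neg (fun h => hJ h.2)]
        have : ∏ r ∈ (range (N + 1)).erase J0, (z i - ρ r) = 0 := by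
          refine Finset.prod_eq_zero (i := (i.1 - i.2).natAbs) ?_ (by rw [hzi, sub_self])
          rw [mem_erase, mem_range]
          refine ⟨hJ, ?_⟩
          omega
        rw [this]; ring
    · rw [if_neg (fun h => hK h.1)]
      have : ∏ s ∈ (range (2 * N + 1)).erase i0, (w i - σ s) = 0 := by
        refine Finset.prod_eq_zero (i := (i.1 + i.2 + N).toNat) ?_ (by rw [hw, sub_self])
        rw [mem_erase, mem_range]
        constructor
        · rw [hi0]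
          have hb := abs_le.1 hK0
          intro h
          apply hK
          omega
        · omega
      rw [this]; ring
  rw [hsum, norm_mul, norm_mul, hσ] at hmain
  have h1 : μ ^ N ≤ ‖Pz‖ := by
    have := hμ N hN1 (K0 : ℝ) (by
      rw [hNL, ← Int.cast_abs]; exact_mod_cast hK0) J0 hJ0
    refine this.trans (le_of_eq ?_)
    rw [hPz, norm_prod]
    refine Finset.prod_congr rfl fun j _ => ?_
    change _ = ‖((ρr J0 : ℝ) : ℂ) - ((ρr j : ℝ) : ℂ)‖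
    rw [← Complex.ofReal_sub, Complex.norm_real, Real.norm_eq_abs]
  have h2 : (1 / 144 : ℝ) ^ N ≤ ‖Pw‖ := by
    have := pk N hN1 i0 hi0N
    refine this.trans (le_of_eq ?_)
    rw [hPw, norm_prod]
  set X := ‖∑ i ∈ (bx L).filter (fun k => k.1 + k.2 = K0 ∧ (k.1 - k.2).natAbs = J0), c i‖ with hX
  have hX0 : 0 ≤ X := norm_nonneg _
  have h3 : X * (μ ^ N * (1 / 144 : ℝ) ^ N) ≤ 2 ^ (2 * N) * (2 ^ N * G) := by
    calc X * (μ ^ N * (1 / 144 : ℝ) ^ N) ≤ X * (‖Pz‖ * ‖Pw‖) := by gcongr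
      _ ≤ _ := hmain
      _ ≤ _ := by gcongr
  have h4 : X = X * (μ ^ N * (1 / 144 : ℝ) ^ N) * (144 / μ) ^ N := by
    rw [div_pow, div_pow, one_pow]
    field_simp
  calc X = X * (μ ^ N * (1 / 144 : ℝ) ^ N) * (144 / μ) ^ N := h4
    _ ≤ 2 ^ (2 * N) * (2 ^ N * G) * (144 / μ) ^ N := by gcongr
    _ = (1152 / μ) ^ N * G := by
        rw [pow_mul, show (1152 : ℝ) / μ = 2 ^ 2 * 2 * (144 / μ) by ring, mul_pow, mul_pow]
        ring


/-- **Low frequencies.** -/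
theorem low : ∃ M : ℝ, 1 ≤ M ∧ ∀ L : ℕ, 1 ≤ L → ∀ (a : ℕ → ℕ → ℝ) (t G : ℝ), 0 ≤ G →
    (∀ k ≤ 2 * L, ∀ l ≤ 4 * L, |∑ n ∈ range (L + 1), ∑ m ∈ range (L + 1),
      a n m * Real.exp (-(lam n m * (t + k / (2 * L) ^ 2))) *
        (Real.sin (Real.pi * (n * (1 / 4 + l / (16 * L)))) *
          Real.sin (Real.pi * (m * (1 / 4 + l / (16 * L) + cc))))| ≤ G) →
    ∀ n0 m0 : ℕ, 1 ≤ n0 → n0 ≤ L → 1 ≤ m0 → m0 ≤ L →
      |a n0 m0| * Real.exp (-(lam n0 m0 * t)) ≤ M ^ L * G := by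
  obtain ⟨Q, hQ1, hQ⟩ := surv
  refine ⟨16 * Q ^ 2, by nlinarith, ?_⟩
  intro L hL a t G hG hs n0 m0 hn1 hnL hm1 hmL
  have hL0 : (0 : ℝ) < L := by exact_mod_cast hL
  have hsg : ∀ n : ℕ, 1 ≤ n → Int.sign (n : ℤ) = 1 := fun n hn =>
    Int.sign_eq_one_of_pos (by exact_mod_cast hn)
  set α : ℝ := a n0 m0 * Real.exp (-(lam n0 m0 * t)) with hα
  set β : ℝ := a m0 n0 * Real.exp (-(lam m0 n0 * t)) with hβ
  have habs : |a n0 m0| * Real.exp (-(lam n0 m0 * t)) = |α| := by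
    rw [hα, abs_mul, abs_of_pos (Real.exp_pos _)]
  rw [habs]
  have hbig : 8 * (L : ℝ) * Q ^ (2 * L) ≤ (16 * Q ^ 2) ^ L := by
    rw [mul_pow, ← pow_mul]
    have h1 : 8 * (L : ℝ) ≤ 16 ^ L := by
      have h2 : (L : ℝ) ≤ 2 ^ L := by exact_mod_cast Nat.lt_two_pow_self.le
      have h3 : (8 : ℝ) ≤ 8 ^ L := by
        calc (8 : ℝ) = 8 ^ 1 := by norm_num
          _ ≤ 8 ^ L := pow_le_pow_right₀ (by norm_num) hL
      calc 8 * (L : ℝ) ≤ 8 ^ L * 2 ^ L := by gcongr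
        _ = 16 ^ L := by rw [← mul_pow]; norm_num
    gcongr
  have key1 := hQ L hL a t G hG hs (n0 + m0) (by
    rw [abs_of_nonneg (by positivity)]; push_cast; omega) ((n0 : ℤ) - m0).natAbs (by omega)
  by_cases hnm : n0 = m0
  · subst hnm
    have hf : (bx L).filter (fun k => k.1 + k.2 = (n0 : ℤ) + n0 ∧
        (k.1 - k.2).natAbs = ((n0 : ℤ) - n0).natAbs) = {((n0 : ℤ), (n0 : ℤ))} := by
      ext k
      obtain ⟨k1, k2⟩ := k
      simp only [bx, mem_filter, mem_product, mem_Icc, mem_singleton, Prod.mk.injEq]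
      omega
    rw [hf, Finset.sum_singleton] at key1
    unfold cf at key1
    simp only [hsg n0 hn1, Int.natAbs_natCast] at key1
    rw [← hα, ← e_add, norm_mul, norm_e, norm_mul, Complex.norm_real, Real.norm_eq_abs] at key1
    have e1 : ‖(-(1 / 4) * ((1 : ℤ) : ℂ) * ((1 : ℤ) : ℂ) : ℂ)‖ = 1 / 4 := by norm_num
    rw [e1] at key1
    have h2 : |α| ≤ 4 * (Q ^ (2 * L) * G) := by linarith
    refine h2.trans ?_
    have h3 : 0 ≤ Q ^ (2 * L) * G := by positivity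
    have hL1 : (1 : ℝ) ≤ L := by exact_mod_cast hL
    calc 4 * (Q ^ (2 * L) * G) ≤ 8 * L * Q ^ (2 * L) * G := by nlinarith
      _ ≤ _ := by gcongr
  · have key2 := hQ L hL a t G hG hs (n0 - m0) (by
      rw [abs_le]; constructor <;> omega) (n0 + m0) (by omega)
    have hf1 : (bx L).filter (fun k => k.1 + k.2 = (n0 : ℤ) + m0 ∧
        (k.1 - k.2).natAbs = ((n0 : ℤ) - m0).natAbs) =
        {((n0 : ℤ), (m0 : ℤ)), ((m0 : ℤ), (n0 : ℤ))} := by
      ext k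
      obtain ⟨k1, k2⟩ := k
      simp only [bx, mem_filter, mem_product, mem_Icc, mem_insert, mem_singleton, Prod.mk.injEq]
      omega
    have hf2 : (bx L).filter (fun k => k.1 + k.2 = (n0 : ℤ) - m0 ∧
        (k.1 - k.2).natAbs = n0 + m0) =
        {((n0 : ℤ), -(m0 : ℤ)), (-(m0 : ℤ), (n0 : ℤ))} := by
      ext k
      obtain ⟨k1, k2⟩ := k
      simp only [bx, mem_filter, mem_product, mem_Icc, mem_insert, mem_singleton, Prod.mk.injEq]
      omega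
    rw [hf1, Finset.sum_pair (by simp only [ne_eq, Prod.mk.injEq]; omega)] at key1
    rw [hf2, Finset.sum_pair (by simp only [ne_eq, Prod.mk.injEq]; omega)] at key2
    unfold cf at key1 key2
    simp only [hsg n0 hn1, hsg m0 hm1, Int.natAbs_natCast, Int.natAbs_neg, Int.sign_neg,
      ← hα, ← hβ] at key1 key2
    have e1 : -(1 / 4) * ((1 : ℤ) : ℂ) * ((1 : ℤ) : ℂ) * (α : ℂ) *
        (e (((n0 + m0 : ℤ) : ℝ) / 4) * e ((m0 : ℤ) * cc)) +
        -(1 / 4) * ((1 : ℤ) : ℂ) * ((1 : ℤ) : ℂ) * (β : ℂ) *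
        (e (((m0 + n0 : ℤ) : ℝ) / 4) * e ((n0 : ℤ) * cc)) =
        (-(1 / 4) * e (((n0 + m0 : ℤ) : ℝ) / 4)) *
          ((α : ℂ) * e (m0 * cc) + (β : ℂ) * e (n0 * cc)) := by
      rw [add_comm (m0 : ℤ) n0]
      push_cast
      ring
    have e2 : -(1 / 4) * ((1 : ℤ) : ℂ) * ((-1 : ℤ) : ℂ) * (α : ℂ) *
        (e (((n0 + -m0 : ℤ) : ℝ) / 4) * e ((-(m0 : ℤ) : ℤ) * cc)) +
        -(1 / 4) * ((-1 : ℤ) : ℂ) * ((1 : ℤ) : ℂ) * (β : ℂ) *
        (e (((-m0 + n0 : ℤ) : ℝ) / 4) * e ((n0 : ℤ) * cc)) =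
        ((1 / 4) * e (((n0 + -m0 : ℤ) : ℝ) / 4)) *
          ((α : ℂ) * e (-(m0 * cc)) + (β : ℂ) * e (n0 * cc)) := by
      rw [add_comm (-(m0 : ℤ)) n0]
      have : ((-(m0 : ℤ) : ℤ) : ℝ) * cc = -(m0 * cc) := by push_cast; ring
      rw [this]
      push_cast
      ring
    rw [e1] at key1
    rw [e2] at key2
    rw [norm_mul, norm_mul, norm_e] at key1 key2
    have n1 : ‖(-(1 / 4) : ℂ)‖ = 1 / 4 := by norm_num
    have n2 : ‖((1 / 4) : ℂ)‖ = 1 / 4 := by norm_num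
    rw [n1] at key1
    rw [n2] at key2
    have h3 : (α : ℂ) * (e (m0 * cc) - e (-(m0 * cc))) =
        ((α : ℂ) * e (m0 * cc) + (β : ℂ) * e (n0 * cc)) -
        ((α : ℂ) * e (-(m0 * cc)) + (β : ℂ) * e (n0 * cc)) := by ring
    have h4 : ‖(α : ℂ) * (e (m0 * cc) - e (-(m0 * cc)))‖ ≤ 8 * (Q ^ (2 * L) * G) := by
      rw [h3]
      refine (norm_sub_le _ _).trans ?_
      linarith
    rw [e_sub_neg, norm_mul, norm_mul, norm_mul, Complex.norm_I, Complex.norm_real,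
      Complex.norm_real, Real.norm_eq_abs, Real.norm_eq_abs, Complex.norm_ofNat] at h4
    have h5 := dio m0 hm1
    have hm0 : (0 : ℝ) < m0 := by exact_mod_cast hm1
    have h6 : 1 / (2 * (L : ℝ)) ≤ |Real.sin (Real.pi * (m0 * cc))| := by
      refine le_trans ?_ h5
      have : (m0 : ℝ) ≤ L := by exact_mod_cast hmL
      rw [div_le_div_iff₀ (by positivity) (by positivity)]
      linarith
    have h7 : |α| * (2 * (1 / (2 * (L : ℝ)))) ≤ 8 * (Q ^ (2 * L) * G) := by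
      refine le_trans ?_ h4
      have := abs_nonneg α
      have h8 : 2 * (1 / (2 * (L : ℝ))) ≤ 2 * 1 * |Real.sin (Real.pi * (m0 * cc))| := by linarith
      nlinarith
    have h8 : |α| = |α| * (2 * (1 / (2 * (L : ℝ)))) * L := by field_simp
    calc |α| = |α| * (2 * (1 / (2 * (L : ℝ)))) * L := h8
      _ ≤ 8 * (Q ^ (2 * L) * G) * L := by gcongr
      _ = 8 * L * Q ^ (2 * L) * G := by ring
      _ ≤ _ := by gcongr

end Pool.Agent.R612.OB
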