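import Pool.Agent.R612.OB.LR

/-!
# The iteration and the final statement
-/

open MeasureTheory Set Filter Topology
open scoped ENNReal

namespace Pool.Agent.R612.OB

open Pool.Agent.R213.OB

/-- one step of the iteration in real form -/
theorem step : ∃ D K : ℝ, 1 ≤ D ∧ 0 < K ∧ ∀ (a : ℕ → ℕ → ℝ) (B : ℝ), (∀ n m, |a n m| ≤ B) →
    (∀ m, a 0 m = 0) → (∀ n, a n 0 = 0) → ∀ g : ℝ → ℝ≥0∞,
    (∀ t x : ℝ, 0 < t → 1 / 4 ≤ x → x ≤ 1 / 2 → ENNReal.ofReal |uu a t (x, x + cc)| ≤ g t) →
    ∀ s : ℝ, 0 < s → (∫⁻ t in Ioc (3 / 4 * s) s, g t) ≠ ⊤ →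
      Real.exp (-(4 * D / s)) * AA a s ≤
        K * (∫⁻ t in Ioc (3 / 4 * s) s, g t).toReal +
        Real.exp (-(4 * D / (s / 2))) * AA a (s / 2) := by
  obtain ⟨M, hM, hlr⟩ := lr
  have hM0 : 0 < M := by linarith
  set m := Real.log M with hm
  have hm0 : 0 ≤ m := Real.log_nonneg hM
  have hexp : ∀ L : ℕ, M ^ L = Real.exp (m * L) := by
    intro L
    rw [mul_comm, Real.exp_nat_mul, hm, Real.exp_log hM0]
  set b := m + 1 with hb
  have hb1 : 1 ≤ b := by linarith
  refine ⟨1 + m * b, 2 * M, by nlinarith, by linarith, ?_⟩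
  set D := 1 + m * b with hD
  have hD1 : 1 ≤ D := by nlinarith
  intro a B ha ha1 ha2 g hg s hs hfin
  set o := ∫⁻ t in Ioc (3 / 4 * s) s, g t with ho
  have hτ : 0 < s / 4 := by linarith
  set x := 4 / s with hx
  have hx0 : 0 < x := by positivity
  set L := ⌈b * x⌉₊ with hL
  have hbx : 0 < b * x := by positivity
  have hL1 : 1 ≤ L := Nat.one_le_iff_ne_zero.2 (Nat.ceil_pos.2 hbx).ne'
  have hLge : b * x ≤ L := Nat.le_ceil _
  have hLle : (L : ℝ) ≤ b * x + 1 := (Nat.ceil_lt_add_one hbx.le).le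
  have hxs : x * (s / 4) = 1 := by rw [hx]; field_simp
  have hLτ : b ≤ L * (s / 4) := by
    calc b = b * x * (s / 4) := by rw [mul_assoc, hxs, mul_one]
      _ ≤ _ := by gcongr
  have h1 := hlr a B ha ha1 ha2 g hg L hL1 (s / 2) (s / 4) (by linarith) hτ (by linarith)
  rw [show s / 2 + 2 * (s / 4) = s by ring, show s / 2 + s / 4 = 3 / 4 * s by ring,
    show 2 / (s / 4) = 2 * x by rw [hx]; field_simp] at h1
  rw [← ho] at h1
  set r := o.toReal with hr
  have hr0 : 0 ≤ r := ENNReal.toReal_nonneg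
  have hor : o = ENNReal.ofReal r := (ENNReal.ofReal_toReal hfin).symm
  have hML : (0 : ℝ) ≤ M ^ L := by positivity
  have hA2 := AA_nonneg a (s / 2)
  rw [hor, ← ENNReal.ofReal_mul (by positivity), ← ENNReal.ofReal_add (by positivity)
    (by positivity)] at h1
  have h2 := (ENNReal.ofReal_le_ofReal_iff (by positivity)).1 h1
  have h3 : Real.exp (-(D * x)) * (2 * x * M ^ L) ≤ 2 * M := by
    have h4 : M ^ L ≤ Real.exp (m * (b * x)) * M := by
      rw [hexp]
      calc Real.exp (m * L) ≤ Real.exp (m * (b * x + 1)) := by gcongr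
        _ = Real.exp (m * (b * x)) * M := by
          rw [mul_add, mul_one, Real.exp_add, hm, Real.exp_log hM0]
    have h5 : x ≤ Real.exp x := by linarith [Real.add_one_le_exp x]
    calc Real.exp (-(D * x)) * (2 * x * M ^ L) ≤
          Real.exp (-(D * x)) * (2 * Real.exp x * (Real.exp (m * (b * x)) * M)) := by gcongr
      _ = 2 * M * (Real.exp (-(D * x)) * (Real.exp x * Real.exp (m * (b * x)))) := by ring
      _ = 2 * M := by
          rw [← Real.exp_add, ← Real.exp_add, hD]
          rw [show -((1 + m * b) * x) + (x + m * (b * x)) = 0 by ring, Real.exp_zero, mul_one]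
  have h4 : Real.exp (-(D * x)) * (M ^ L * Real.exp (-(Real.pi ^ 2 * L ^ 2 * (s / 4)))) ≤
      Real.exp (-(2 * D * x)) := by
    rw [hexp, ← Real.exp_add, ← Real.exp_add]
    apply Real.exp_le_exp.2
    have hpi : (9 : ℝ) ≤ Real.pi ^ 2 := by nlinarith [Real.pi_gt_three]
    have hL0 : (0 : ℝ) ≤ L := by positivity
    have h5 : 9 * (b * L) ≤ Real.pi ^ 2 * L ^ 2 * (s / 4) := by
      calc 9 * (b * L) ≤ Real.pi ^ 2 * ((L * (s / 4)) * L) := by gcongr
        _ = _ := by ring
    have h6 : D * x ≤ 8 * b * L := by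
      have h7 : D ≤ 2 * b * b := by rw [hD]; nlinarith
      have h8 : D * x ≤ 2 * b * (b * x) := by nlinarith
      nlinarith
    have h7 : m * L ≤ b * L := by nlinarith
    nlinarith
  have hfx : 4 * D / s = D * x := by rw [hx]; ring
  have hfx2 : 4 * D / (s / 2) = 2 * D * x := by rw [hx]; field_simp
  rw [hfx, hfx2]
  have he : 0 ≤ Real.exp (-(D * x)) := (Real.exp_pos _).le
  calc Real.exp (-(D * x)) * AA a s ≤ Real.exp (-(D * x)) * (2 * x * M ^ L * r +
        M ^ L * (Real.exp (-(Real.pi ^ 2 * L ^ 2 * (s / 4))) * AA a (s / 2))) := by gcongr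
    _ = Real.exp (-(D * x)) * (2 * x * M ^ L) * r +
        Real.exp (-(D * x)) * (M ^ L * Real.exp (-(Real.pi ^ 2 * L ^ 2 * (s / 4)))) *
          AA a (s / 2) := by ring
    _ ≤ _ := by gcongr

/-- the observability inequality for bounded coefficients -/
theorem iter (T : ℝ) (hT : 0 < T) : ∃ C : ℝ, 0 < C ∧ ∀ (a : ℕ → ℕ → ℝ) (B : ℝ),
    (∀ n m, |a n m| ≤ B) → (∀ m, a 0 m = 0) → (∀ n, a n 0 = 0) → ∀ g : ℝ → ℝ≥0∞,
    (∀ t x : ℝ, 0 < t → 1 / 4 ≤ x → x ≤ 1 / 2 → ENNReal.ofReal |uu a t (x, x + cc)| ≤ g t) →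
    (∫⁻ t in Ioo 0 T, g t) ≠ ⊤ → AA a T ≤ C * (∫⁻ t in Ioo 0 T, g t).toReal := by
  obtain ⟨D, K, hD, hK, hstep⟩ := step
  refine ⟨K * Real.exp (4 * D / (T / 2)), by positivity, ?_⟩
  intro a B ha ha1 ha2 g hg hfin
  have hB0 : 0 ≤ B := (abs_nonneg _).trans (ha 0 0)
  let tt : ℕ → ℝ := fun n => T / 2 / 2 ^ n
  have htt : ∀ n, 0 < tt n := fun n => by positivity
  have htt0 : tt 0 = T / 2 := by simp [tt]
  have htts : ∀ n, tt (n + 1) = tt n / 2 := fun n => by
    simp only [tt]; rw [pow_succ]; field_simp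
  have httle : ∀ n, tt n ≤ T / 2 := fun n => by
    simp only [tt]
    exact div_le_self (by linarith) (one_le_pow₀ (by norm_num))
  have hsub : ∀ α β : ℝ, 0 ≤ α → β < T → (∫⁻ t in Ioc α β, g t) ≤ ∫⁻ t in Ioo 0 T, g t := by
    intro α β hα hβ
    refine lintegral_mono_set ?_
    intro t ht
    exact ⟨lt_of_le_of_lt hα ht.1, lt_of_le_of_lt ht.2 hβ⟩
  have hne : ∀ α β : ℝ, 0 ≤ α → β < T → (∫⁻ t in Ioc α β, g t) ≠ ⊤ := fun α β hα hβ =>
    ne_top_of_le_ne_top hfin (hsub α β hα hβ)
  have hind : ∀ n : ℕ, Real.exp (-(4 * D / tt 0)) * AA a (tt 0) ≤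
      K * (∫⁻ t in Ioc (tt n) (tt 0), g t).toReal +
        Real.exp (-(4 * D / tt n)) * AA a (tt n) := by
    intro n
    induction n with
    | zero => simp
    | succ n ih =>
      have hn0 := htt n
      have hs1 := hstep a B ha ha1 ha2 g hg (tt n) (htt n)
        (hne _ _ (by positivity) (by linarith [httle n]))
      rw [← htts n] at hs1
      have h1 : (∫⁻ t in Ioc (tt n) (tt 0), g t) + (∫⁻ t in Ioc (3 / 4 * tt n) (tt n), g t) ≤
          ∫⁻ t in Ioc (tt (n + 1)) (tt 0), g t := by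
        rw [← lintegral_union measurableSet_Ioc]
        · refine lintegral_mono_set ?_
          rintro t (ht | ht)
          · refine ⟨?_, ht.2⟩
            have := ht.1
            rw [htts n]; linarith
          · refine ⟨?_, ?_⟩
            · have := ht.1
              rw [htts n]; linarith
            · have := httle n
              rw [htt0]
              exact ht.2.trans this
        · rw [Set.disjoint_left]
          intro t ht ht'
          exact absurd ht.1 (not_lt.2 ht'.2)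
      have h2 := ENNReal.toReal_mono (hne _ _ (htt (n + 1)).le (by linarith [httle 0])) h1
      rw [ENNReal.toReal_add (hne _ _ (htt n).le (by linarith [httle 0]))
        (hne _ _ (by positivity) (by linarith [httle n]))] at h2
      nlinarith
  have hlim : ∀ n : ℕ, Real.exp (-(4 * D / tt n)) * AA a (tt n) ≤ B * tt n := by
    intro n
    have hn0 := htt n
    have h1 := AA_le ha hn0
    have h2 : (1 + 1 / tt n) ^ 2 ≤ Real.exp (2 * (1 / tt n)) := by
      rw [show (2 : ℝ) * (1 / tt n) = ((2 : ℕ) : ℝ) * (1 / tt n) by norm_num, Real.exp_nat_mul]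
      refine pow_le_pow_left₀ (by positivity) ?_ 2
      linarith [Real.add_one_le_exp (1 / tt n)]
    have h3 : Real.exp (-(4 * D / tt n)) ≤ Real.exp (-(4 * (1 / tt n))) := by
      apply Real.exp_le_exp.2
      have : 4 * (1 / tt n) ≤ 4 * D / tt n := by
        rw [mul_one_div]
        gcongr
        linarith
      linarith
    have h4 : Real.exp (-(2 * (1 / tt n))) ≤ tt n := by
      rw [Real.exp_neg, inv_le_comm₀ (Real.exp_pos _) hn0]
      have := Real.add_one_le_exp (2 * (1 / tt n))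
      have h5 : (tt n)⁻¹ = 1 / tt n := (one_div _).symm
      rw [h5]
      have : 0 < 1 / tt n := by positivity
      linarith
    calc Real.exp (-(4 * D / tt n)) * AA a (tt n) ≤
          Real.exp (-(4 * (1 / tt n))) * (B * Real.exp (2 * (1 / tt n))) := by
          refine mul_le_mul h3 (h1.trans ?_) (AA_nonneg _ _) (Real.exp_pos _).le
          gcongr
      _ = B * (Real.exp (-(4 * (1 / tt n))) * Real.exp (2 * (1 / tt n))) := by ring
      _ = B * Real.exp (-(2 * (1 / tt n))) := by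
          rw [← Real.exp_add]; congr 2; ring
      _ ≤ B * tt n := by gcongr
  have hfinal : Real.exp (-(4 * D / tt 0)) * AA a (tt 0) ≤
      K * (∫⁻ t in Ioo 0 T, g t).toReal := by
    have h1 : ∀ n : ℕ, Real.exp (-(4 * D / tt 0)) * AA a (tt 0) ≤
        K * (∫⁻ t in Ioo 0 T, g t).toReal + B * tt n := by
      intro n
      have h2 := ENNReal.toReal_mono hfin (hsub (tt n) (tt 0) (htt n).le (by linarith [httle 0]))
      have h3 := hind n
      have h4 := hlim n
      have h5 : K * (∫⁻ t in Ioc (tt n) (tt 0), g t).toReal ≤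
        K * (∫⁻ t in Ioo 0 T, g t).toReal := by gcongr
      linarith
    have h6 : Tendsto tt atTop (𝓝 0) := by
      have : Tendsto (fun n : ℕ => T / 2 * (1 / 2 : ℝ) ^ n) atTop (𝓝 (T / 2 * 0)) :=
        (tendsto_pow_atTop_nhds_zero_of_lt_one (by norm_num) (by norm_num)).const_mul _
      rw [mul_zero] at this
      refine this.congr fun n => ?_
      simp only [tt]
      rw [one_div, inv_pow]
      rfl
    have h7 : Tendsto (fun n => K * (∫⁻ t in Ioo 0 T, g t).toReal + B * tt n) atTop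
        (𝓝 (K * (∫⁻ t in Ioo 0 T, g t).toReal + B * 0)) := (h6.const_mul B).const_add _
    rw [mul_zero, add_zero] at h7
    exact ge_of_tendsto' h7 h1
  rw [htt0] at hfinal
  have h8 : AA a T ≤ AA a (T / 2) := AA_anti ha (by linarith) (by linarith)
  refine h8.trans ?_
  calc AA a (T / 2) = Real.exp (4 * D / (T / 2)) *
        (Real.exp (-(4 * D / (T / 2))) * AA a (T / 2)) := by
        rw [← mul_assoc, ← Real.exp_add, add_neg_cancel, Real.exp_zero, one_mul]
    _ ≤ Real.exp (4 * D / (T / 2)) * (K * (∫⁻ t in Ioo 0 T, g t).toReal) := by gcongr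
    _ = _ := by ring

/-- the polynomial `y - x - (√2 - 1)` -/
noncomputable def PP : MvPolynomial (Fin 2) ℝ :=
  MvPolynomial.X 1 - MvPolynomial.X 0 - MvPolynomial.C cc

theorem PP_curve : curve PP = {p | p.2 = p.1 + cc} := by
  ext p
  simp only [curve, PP, map_sub, MvPolynomial.eval_X, MvPolynomial.eval_C, Set.mem_ofPred_eq,
    Matrix.cons_val_zero, Matrix.cons_val_one]
  constructor
  · intro h; linarith
  · intro h; linarith

theorem PP_irred : Irreducible PP := by
  have hc0 : MvPolynomial.coeff (Finsupp.single 1 1) PP = 1 := by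
    unfold PP
    rw [MvPolynomial.coeff_sub, MvPolynomial.coeff_sub, MvPolynomial.coeff_X,
      MvPolynomial.coeff_X, MvPolynomial.coeff_C]
    have h1 : Finsupp.single (0 : Fin 2) 1 ≠ Finsupp.single (1 : Fin 2) 1 := by
      intro h
      have := DFunLike.congr_fun h 0
      simp at this
    have h2 : (0 : Fin 2 →₀ ℕ) ≠ Finsupp.single (1 : Fin 2) 1 := by
      intro h
      have := DFunLike.congr_fun h 1
      simp at this
    rw [if_neg h1, if_neg h2]
    norm_num
  have hdeg : PP.totalDegree = 1 := by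
    apply le_antisymm
    · unfold PP
      refine (MvPolynomial.totalDegree_sub _ _).trans (max_le ?_ ?_)
      · refine (MvPolynomial.totalDegree_sub _ _).trans (max_le ?_ ?_) <;>
          rw [MvPolynomial.totalDegree_X]
      · rw [MvPolynomial.totalDegree_C]; norm_num
    · have h1 : Finsupp.single (1 : Fin 2) 1 ∈ PP.support := by
        rw [MvPolynomial.mem_support_iff, hc0]
        exact one_ne_zero
      have := MvPolynomial.le_totalDegree h1
      simpa using this
  refine MvPolynomial.irreducible_of_totalDegree_eq_one hdeg ?_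
  intro x hx
  have := hx (Finsupp.single 1 1)
  rw [hc0] at this
  exact isUnit_of_dvd_one this

theorem cc_bounds : 0 < cc ∧ cc < 1 / 2 := by
  unfold cc
  have h1 : (1 : ℝ) < Real.sqrt 2 := by
    rw [Real.lt_sqrt (by norm_num)]; norm_num
  have h2 : Real.sqrt 2 < 3 / 2 := by
    rw [Real.sqrt_lt' (by norm_num)]; norm_num
  constructor <;> linarith

/-- The line `y = x + √2 - 1` observes the heat equation. -/
theorem PP_obs (T : ℝ) (hT : 0 < T) : Observable (curve PP ∩ Om) T := by
  obtain ⟨C, hC, h⟩ := iter T hT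
  refine ⟨C, hC, ?_⟩
  intro f hf
  set O := ∫⁻ t in Ioo 0 T, ⨆ p ∈ curve PP ∩ Om, ENNReal.ofReal |heat f t p| with hO
  by_cases hOt : O = ⊤
  · rw [hOt, ENNReal.mul_top (by rw [ne_eq, ENNReal.ofReal_eq_zero, not_le]; exact hC)]
    exact le_top
  have hfinm : IsFiniteMeasure (volume.restrict Om) := by
    refine ⟨?_⟩
    rw [Measure.restrict_apply_univ, Om, Measure.volume_eq_prod, Measure.prod_prod,
      Real.volume_Ioo]
    simp
  have hint : Integrable f (volume.restrict Om) := hf.integrable (by norm_num)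
  set B := 4 * ∫ p in Om, |f p| with hB
  have ha : ∀ n m, |coef f n m| ≤ B := by
    intro n m
    unfold coef
    rw [abs_mul, abs_of_pos (by norm_num : (0 : ℝ) < 4), hB]
    refine mul_le_mul_of_nonneg_left ?_ (by norm_num)
    rw [← Real.norm_eq_abs]
    refine norm_integral_le_of_norm_le hint.abs (Filter.Eventually.of_forall fun p => ?_)
    rw [Real.norm_eq_abs, abs_mul]
    have := ef_abs n m p
    nlinarith [abs_nonneg (f p)]
  have ha1 : ∀ m, coef f 0 m = 0 := by
    intro m
    simp [coef, ef]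
  have ha2 : ∀ n, coef f n 0 = 0 := by
    intro n
    simp [coef, ef]
  have hcc := cc_bounds
  have h1 := h (coef f) B ha ha1 ha2
    (fun t => ⨆ p ∈ curve PP ∩ Om, ENNReal.ofReal |heat f t p|) (by
      intro t x _ hx1 hx2
      have hmem : ((x, x + cc) : ℝ × ℝ) ∈ curve PP ∩ Om := by
        refine ⟨?_, ?_⟩
        · rw [PP_curve]; rfl
        · rw [Om, Set.mem_prod]
          dsimp only
          refine ⟨⟨by linarith, by linarith⟩, ⟨by linarith, by linarith⟩⟩
      exact le_iSup₂ (f := fun (p : ℝ × ℝ) (_ : p ∈ curve PP ∩ Om) =>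
        ENNReal.ofReal |heat f t p|) (x, x + cc) hmem) hOt
  rw [eLpNorm_exponent_top]
  calc eLpNormEssSup (heat f T) (volume.restrict Om) ≤ ENNReal.ofReal (AA (coef f) T) := by
        refine eLpNormEssSup_le_of_ae_bound (Filter.Eventually.of_forall fun p => ?_)
        rw [Real.norm_eq_abs]
        exact uu_abs_le ha hT p
    _ ≤ ENNReal.ofReal (C * O.toReal) := ENNReal.ofReal_le_ofReal h1
    _ = ENNReal.ofReal C * O := by
        rw [ENNReal.ofReal_mul hC.le, ENNReal.ofReal_toReal hOt]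

theorem PP_not_vert (c : ℝ) : curve PP ≠ {p | p.1 = c} := by
  intro h
  rw [PP_curve] at h
  have h1 : ((c + 1, c + 1 + cc) : ℝ × ℝ) ∈ {p : ℝ × ℝ | p.2 = p.1 + cc} := rfl
  rw [h] at h1
  have : c + 1 = c := h1
  linarith

theorem PP_not_horiz (c : ℝ) : curve PP ≠ {p | p.2 = c} := by
  intro h
  rw [PP_curve] at h
  have h1 : ((c + 1, c + 1 + cc) : ℝ × ℝ) ∈ {p : ℝ × ℝ | p.2 = p.1 + cc} := rfl
  have h2 : ((c, c + cc) : ℝ × ℝ) ∈ {p : ℝ × ℝ | p.2 = p.1 + cc} := rfl
  rw [h] at h1 h2
  have h3 : c + 1 + cc = c := h1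
  have h4 : c + cc = c := h2
  linarith

theorem main : S_MAIN :=
  ⟨PP, PP_irred, PP_not_vert, PP_not_horiz, PP_obs⟩

end Pool.Agent.R612.OB
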