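import Pool.Agent.R612.OB.Low

/-!
# The heat series: summability, decay and the tail estimate
-/

open Finset

namespace Pool.Agent.R612.OB

open Pool.Agent.R213.OB

/-- the sum of the absolute values of the modes at time `t` -/
noncomputable def AA (a : ℕ → ℕ → ℝ) (t : ℝ) : ℝ :=
  ∑' k : ℕ × ℕ, |a k.1 k.2| * Real.exp (-(lam k.1 k.2 * t))

/-- the solution with coefficients `a` -/
noncomputable def uu (a : ℕ → ℕ → ℝ) (t : ℝ) (p : ℝ × ℝ) : ℝ :=
  ∑' k : ℕ × ℕ, a k.1 k.2 * Real.exp (-(lam k.1 k.2 * t)) * ef k.1 k.2 p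

theorem lam_nonneg (n m : ℕ) : 0 ≤ lam n m := by unfold lam; positivity

theorem lam_ge (n m : ℕ) : (n : ℝ) + m ≤ lam n m := by
  unfold lam
  have hpi : (1 : ℝ) ≤ Real.pi ^ 2 := by nlinarith [Real.pi_gt_three]
  have h : ∀ k : ℕ, (k : ℝ) ≤ (k : ℝ) ^ 2 := by
    intro k
    rcases Nat.eq_zero_or_pos k with h | h
    · simp [h]
    · have : (1 : ℝ) ≤ k := by exact_mod_cast h
      nlinarith
  have h1 := h n
  have h2 := h m
  have h3 : (0 : ℝ) ≤ (n : ℝ) ^ 2 + (m : ℝ) ^ 2 := by positivity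
  nlinarith

theorem exp_le_geo {t : ℝ} (ht : 0 < t) (n m : ℕ) :
    Real.exp (-(lam n m * t)) ≤ Real.exp (-t) ^ n * Real.exp (-t) ^ m := by
  rw [← Real.exp_nat_mul, ← Real.exp_nat_mul, ← Real.exp_add]
  apply Real.exp_le_exp.2
  have := lam_ge n m
  nlinarith

theorem geo_summable {t : ℝ} (ht : 0 < t) :
    Summable fun k : ℕ × ℕ => Real.exp (-t) ^ k.1 * Real.exp (-t) ^ k.2 := by
  have h := summable_geometric_of_lt_one (Real.exp_pos (-t)).le
    (Real.exp_lt_one_iff.2 (by linarith : -t < 0))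
  exact h.mul_of_nonneg h (fun _ => by positivity) (fun _ => by positivity)

theorem AA_summable {a : ℕ → ℕ → ℝ} {B : ℝ} (ha : ∀ n m, |a n m| ≤ B) {t : ℝ} (ht : 0 < t) :
    Summable fun k : ℕ × ℕ => |a k.1 k.2| * Real.exp (-(lam k.1 k.2 * t)) := by
  have h0 : 0 ≤ B := (abs_nonneg _).trans (ha 0 0)
  refine Summable.of_nonneg_of_le (fun _ => by positivity) (fun k => ?_)
    ((geo_summable ht).mul_left B)
  exact mul_le_mul (ha _ _) (exp_le_geo ht _ _) (Real.exp_pos _).le h0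

theorem AA_nonneg (a : ℕ → ℕ → ℝ) (t : ℝ) : 0 ≤ AA a t :=
  tsum_nonneg fun _ => by positivity

theorem AA_anti {a : ℕ → ℕ → ℝ} {B : ℝ} (ha : ∀ n m, |a n m| ≤ B) {s t : ℝ} (hs : 0 < s)
    (hst : s ≤ t) : AA a t ≤ AA a s := by
  refine Summable.tsum_le_tsum (fun k => ?_) (AA_summable ha (hs.trans_le hst)) (AA_summable ha hs)
  refine mul_le_mul_of_nonneg_left ?_ (abs_nonneg _)
  apply Real.exp_le_exp.2
  have := lam_nonneg k.1 k.2
  nlinarith

theorem AA_le {a : ℕ → ℕ → ℝ} {B : ℝ} (ha : ∀ n m, |a n m| ≤ B) {t : ℝ} (ht : 0 < t) :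
    AA a t ≤ B * (1 + 1 / t) ^ 2 := by
  have h0 : 0 ≤ B := (abs_nonneg _).trans (ha 0 0)
  have h1 : AA a t ≤ ∑' k : ℕ × ℕ, B * (Real.exp (-t) ^ k.1 * Real.exp (-t) ^ k.2) := by
    refine Summable.tsum_le_tsum (fun k => ?_) (AA_summable ha ht) ((geo_summable ht).mul_left B)
    exact mul_le_mul (ha _ _) (exp_le_geo ht _ _) (Real.exp_pos _).le h0
  have hg := summable_geometric_of_lt_one (Real.exp_pos (-t)).le
    (Real.exp_lt_one_iff.2 (by linarith : -t < 0))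
  have hge := tsum_geometric_of_lt_one (Real.exp_pos (-t)).le
    (Real.exp_lt_one_iff.2 (by linarith : -t < 0))
  rw [tsum_mul_left, ← hg.tsum_mul_tsum hg (geo_summable ht), hge] at h1
  have h2 : (1 - Real.exp (-t))⁻¹ ≤ 1 + 1 / t := by
    have h3 : Real.exp (-t) ≤ 1 / (1 + t) := by
      rw [Real.exp_neg, ← one_div]
      apply one_div_le_one_div_of_le (by linarith)
      have := Real.add_one_le_exp t
      linarith
    have h4 : t / (1 + t) ≤ 1 - Real.exp (-t) := by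
      have : t / (1 + t) = 1 - 1 / (1 + t) := by field_simp; ring
      rw [this]; linarith
    have h5 : 1 + 1 / t = (t / (1 + t))⁻¹ := by field_simp; ring
    rw [h5]
    exact inv_anti₀ (by positivity) h4
  have h6 : 0 ≤ (1 - Real.exp (-t))⁻¹ := by
    rw [← hge]; exact tsum_nonneg fun _ => by positivity
  calc AA a t ≤ B * ((1 - Real.exp (-t))⁻¹ * (1 - Real.exp (-t))⁻¹) := h1
    _ ≤ B * ((1 + 1 / t) * (1 + 1 / t)) := by gcongr
    _ = _ := by ring

theorem ef_abs (n m : ℕ) (p : ℝ × ℝ) : |ef n m p| ≤ 1 := by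
  unfold ef
  rw [abs_mul]
  have h1 := Real.abs_sin_le_one (n * Real.pi * p.1)
  have h2 := Real.abs_sin_le_one (m * Real.pi * p.2)
  nlinarith [abs_nonneg (Real.sin (n * Real.pi * p.1)), abs_nonneg (Real.sin (m * Real.pi * p.2))]

theorem term_le (a : ℕ → ℕ → ℝ) (t : ℝ) (p : ℝ × ℝ) (k : ℕ × ℕ) :
    |a k.1 k.2 * Real.exp (-(lam k.1 k.2 * t)) * ef k.1 k.2 p| ≤
      |a k.1 k.2| * Real.exp (-(lam k.1 k.2 * t)) := by
  rw [abs_mul, abs_mul, abs_of_pos (Real.exp_pos _)]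
  have h1 := ef_abs k.1 k.2 p
  have h2 : 0 ≤ |a k.1 k.2| * Real.exp (-(lam k.1 k.2 * t)) := by positivity
  nlinarith

theorem uu_summable {a : ℕ → ℕ → ℝ} {B : ℝ} (ha : ∀ n m, |a n m| ≤ B) {t : ℝ} (ht : 0 < t)
    (p : ℝ × ℝ) :
    Summable fun k : ℕ × ℕ => a k.1 k.2 * Real.exp (-(lam k.1 k.2 * t)) * ef k.1 k.2 p :=
  Summable.of_norm_bounded (AA_summable ha ht) (fun k => by
    rw [Real.norm_eq_abs]; exact term_le a t p k)

theorem uu_abs_le {a : ℕ → ℕ → ℝ} {B : ℝ} (ha : ∀ n m, |a n m| ≤ B) {t : ℝ} (ht : 0 < t)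
    (p : ℝ × ℝ) : |uu a t p| ≤ AA a t := by
  have := tsum_of_norm_bounded (AA_summable ha ht).hasSum
    (f := fun k : ℕ × ℕ => a k.1 k.2 * Real.exp (-(lam k.1 k.2 * t)) * ef k.1 k.2 p) (fun k => by
    rw [Real.norm_eq_abs]; exact term_le a t p k)
  rw [Real.norm_eq_abs] at this
  exact this

theorem uu_cont {a : ℕ → ℕ → ℝ} {B : ℝ} (ha : ∀ n m, |a n m| ≤ B) {s : ℝ} (hs : 0 < s)
    (p : ℝ × ℝ) : ContinuousOn (fun t => uu a t p) (Set.Ici s) := by
  unfold uu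
  refine continuousOn_tsum (u := fun k : ℕ × ℕ => |a k.1 k.2| * Real.exp (-(lam k.1 k.2 * s)))
    (fun k => by fun_prop) (AA_summable ha hs) ?_
  intro k t ht
  rw [Real.norm_eq_abs]
  refine (term_le a t p k).trans ?_
  refine mul_le_mul_of_nonneg_left ?_ (abs_nonneg _)
  apply Real.exp_le_exp.2
  have := lam_nonneg k.1 k.2
  have : s ≤ t := ht
  nlinarith

/-- the box of low modes -/
noncomputable def lo (L : ℕ) : Finset (ℕ × ℕ) := range (L + 1) ×ˢ range (L + 1)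

/-- Tail estimate. -/
theorem tail {a : ℕ → ℕ → ℝ} {B : ℝ} (ha : ∀ n m, |a n m| ≤ B) {t0 τ t : ℝ} (ht0 : 0 < t0)
    (hτ : 0 < τ) (ht : t0 + τ ≤ t) (L : ℕ) :
    ∑' k : {k : ℕ × ℕ // k ∉ lo L}, |a k.1.1 k.1.2| * Real.exp (-(lam k.1.1 k.1.2 * t)) ≤
      Real.exp (-(Real.pi ^ 2 * L ^ 2 * τ)) * AA a t0 := by
  have h1 : Summable fun k : {k : ℕ × ℕ // k ∉ lo L} =>
      |a k.1.1 k.1.2| * Real.exp (-(lam k.1.1 k.1.2 * t)) :=
    (AA_summable ha (by linarith : 0 < t)).subtype _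
  have h2 : Summable fun k : {k : ℕ × ℕ // k ∉ lo L} =>
      Real.exp (-(Real.pi ^ 2 * L ^ 2 * τ)) *
        (|a k.1.1 k.1.2| * Real.exp (-(lam k.1.1 k.1.2 * t0))) :=
    ((AA_summable ha ht0).mul_left _).subtype _
  calc _ ≤ ∑' k : {k : ℕ × ℕ // k ∉ lo L}, Real.exp (-(Real.pi ^ 2 * L ^ 2 * τ)) *
        (|a k.1.1 k.1.2| * Real.exp (-(lam k.1.1 k.1.2 * t0))) := by
        refine Summable.tsum_le_tsum (fun k => ?_) h1 h2
        obtain ⟨⟨n, m⟩, hk⟩ := k
        simp only [lo, mem_product, mem_range, not_and_or, not_lt] at hk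
        have h3 : Real.exp (-(lam n m * t)) ≤
            Real.exp (-(Real.pi ^ 2 * L ^ 2 * τ)) * Real.exp (-(lam n m * t0)) := by
          rw [← Real.exp_add]
          apply Real.exp_le_exp.2
          have h4 : Real.pi ^ 2 * (L : ℝ) ^ 2 ≤ lam n m := by
            unfold lam
            have h5 : (L : ℝ) ^ 2 ≤ (n : ℝ) ^ 2 + (m : ℝ) ^ 2 := by
              rcases hk with hk | hk
              · have : (L : ℝ) ≤ n := by
                  have : L ≤ n := by omega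
                  exact_mod_cast this
                nlinarith [sq_nonneg (m : ℝ), Nat.cast_nonneg (α := ℝ) L]
              · have : (L : ℝ) ≤ m := by
                  have : L ≤ m := by omega
                  exact_mod_cast this
                nlinarith [sq_nonneg (n : ℝ), Nat.cast_nonneg (α := ℝ) L]
            have h6 : 0 ≤ Real.pi ^ 2 := by positivity
            nlinarith
          have h5 := lam_nonneg n m
          have h6 : lam n m * (t0 + τ) ≤ lam n m * t := mul_le_mul_of_nonneg_left ht h5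
          have h7 : Real.pi ^ 2 * (L : ℝ) ^ 2 * τ ≤ lam n m * τ :=
            mul_le_mul_of_nonneg_right h4 hτ.le
          linarith
        have h8 := abs_nonneg (a n m)
        calc |a n m| * Real.exp (-(lam n m * t)) ≤ |a n m| *
              (Real.exp (-(Real.pi ^ 2 * L ^ 2 * τ)) * Real.exp (-(lam n m * t0))) := by gcongr
          _ = _ := by ring
    _ = Real.exp (-(Real.pi ^ 2 * L ^ 2 * τ)) * ∑' k : {k : ℕ × ℕ // k ∉ lo L},
        (|a k.1.1 k.1.2| * Real.exp (-(lam k.1.1 k.1.2 * t0))) := tsum_mul_left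
    _ ≤ _ := by
        refine mul_le_mul_of_nonneg_left ?_ (Real.exp_pos _).le
        exact Summable.tsum_subtype_le (f := fun k : ℕ × ℕ => |a k.1 k.2| *
          Real.exp (-(lam k.1 k.2 * t0))) _ (fun k => by positivity) (AA_summable ha ht0)

/-- splitting of the solution -/
theorem uu_split {a : ℕ → ℕ → ℝ} {B : ℝ} (ha : ∀ n m, |a n m| ≤ B) {t0 τ t : ℝ} (ht0 : 0 < t0)
    (hτ : 0 < τ) (ht : t0 + τ ≤ t) (L : ℕ) (p : ℝ × ℝ) :
    |∑ k ∈ lo L, a k.1 k.2 * Real.exp (-(lam k.1 k.2 * t)) * ef k.1 k.2 p| ≤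
      |uu a t p| + Real.exp (-(Real.pi ^ 2 * L ^ 2 * τ)) * AA a t0 := by
  have htp : 0 < t := by linarith
  have h1 := (uu_summable ha htp p).sum_add_tsum_subtype_compl (lo L)
  have h2 : |∑' k : {k : ℕ × ℕ // k ∉ lo L},
      a k.1.1 k.1.2 * Real.exp (-(lam k.1.1 k.1.2 * t)) * ef k.1.1 k.1.2 p| ≤
      ∑' k : {k : ℕ × ℕ // k ∉ lo L}, |a k.1.1 k.1.2| * Real.exp (-(lam k.1.1 k.1.2 * t)) := by
    rw [← Real.norm_eq_abs]
    exact tsum_of_norm_bounded (((AA_summable ha htp).subtype _).hasSum) (fun k => by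
      rw [Real.norm_eq_abs]; exact term_le a t p k.1)
  have h3 := h2.trans (tail ha ht0 hτ ht L)
  have h4 : ∑ k ∈ lo L, a k.1 k.2 * Real.exp (-(lam k.1 k.2 * t)) * ef k.1 k.2 p =
      uu a t p - ∑' k : {k : ℕ × ℕ // k ∉ lo L},
        a k.1.1 k.1.2 * Real.exp (-(lam k.1.1 k.1.2 * t)) * ef k.1.1 k.1.2 p := by
    have h5 : uu a t p = ∑' k : ℕ × ℕ, a k.1 k.2 * Real.exp (-(lam k.1 k.2 * t)) * ef k.1 k.2 p :=
      rfl
    rw [h5, ← h1]
    ring
  rw [h4]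
  exact (abs_sub _ _).trans (by linarith)

/-- splitting of the norm -/
theorem AA_split {a : ℕ → ℕ → ℝ} {B : ℝ} (ha : ∀ n m, |a n m| ≤ B) {t0 τ t : ℝ} (ht0 : 0 < t0)
    (hτ : 0 < τ) (ht : t0 + τ ≤ t) (L : ℕ) :
    AA a t ≤ ∑ k ∈ lo L, |a k.1 k.2| * Real.exp (-(lam k.1 k.2 * t)) +
      Real.exp (-(Real.pi ^ 2 * L ^ 2 * τ)) * AA a t0 := by
  have htp : 0 < t := by linarith
  have h1 := (AA_summable ha htp).sum_add_tsum_subtype_compl (lo L)
  have h3 := tail ha ht0 hτ ht L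
  have h5 : AA a t = ∑' k : ℕ × ℕ, |a k.1 k.2| * Real.exp (-(lam k.1 k.2 * t)) := rfl
  rw [h5, ← h1]
  linarith

end Pool.Agent.R612.OB
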